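import Mathlib
import Pool.Agent.Lib.MP_33b3f9_ag.M4.VLMain
import Pool.Agent.Lib.MP_33b3f9_ag.M4.ModSy
import Pool.Agent.Lib.MP_33b3f9_ag.M4.ModBd

/-!
Forms on the fixed locus of a finite family of integral similitudes: definitions.
-/

set_option autoImplicit false

namespace M4.Rx

open Complex Matrix

variable {ι κ α T : Type} [Fintype ι] [DecidableEq ι]

/-- The points of the Siegel space that are fixed by all `a i`. -/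
def Fx (a : α → Matrix (ι ⊕ ι) (ι ⊕ ι) ℤ) : Set (HH ι) := {τ | ∀ i, act (mz (a i)) τ.1 = τ.1}

/-- The integral symplectic matrices that commute with all `a i`. -/
def Cz (a : α → Matrix (ι ⊕ ι) (ι ⊕ ι) ℤ) : Set (Matrix (ι ⊕ ι) (ι ⊕ ι) ℤ) :=
  {γ | γ ∈ symplecticGroup ι ℤ ∧ ∀ i, γ * a i = a i * γ}

/-- Forms of weight `4 k` whose values on the image of `ch` are invariant under `S ∩ Cz a`. -/
noncomputable def MIV (a : α → Matrix (ι ⊕ ι) (ι ⊕ ι) ℤ) (ch : T → HH ι)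
    (S : Set (Matrix (ι ⊕ ι) (ι ⊕ ι) ℤ)) (k : ℕ) : Submodule ℂ (HH ι → ℂ) where
  carrier := {f | f ∈ MF ι (8 * k) ∧
    ∀ γ ∈ S, γ ∈ Cz a → ∀ z, slash k (mz γ) f (ch z) = f (ch z)}
  zero_mem' := ⟨Submodule.zero_mem _, fun _ _ _ _ => by rw [map_zero]⟩
  add_mem' := fun hf hg => ⟨Submodule.add_mem _ hf.1 hg.1, fun γ h h' z => by
    rw [map_add, Pi.add_apply, Pi.add_apply, hf.2 γ h h', hg.2 γ h h']⟩
  smul_mem' := fun c _ hf => ⟨Submodule.smul_mem _ c hf.1, fun γ h h' z => by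
    rw [map_smul, Pi.smul_apply, Pi.smul_apply, hf.2 γ h h']⟩

/-- The pull backs by `ch` of the forms in `MIV`. -/
noncomputable def MIX (a : α → Matrix (ι ⊕ ι) (ι ⊕ ι) ℤ) (ch : T → HH ι)
    (S : Set (Matrix (ι ⊕ ι) (ι ⊕ ι) ℤ)) (k : ℕ) : Submodule ℂ (T → ℂ) :=
  (MIV a ch S k).map (LinearMap.funLeft ℂ ℂ ch)

theorem mem_MIX {a : α → Matrix (ι ⊕ ι) (ι ⊕ ι) ℤ} {ch : T → HH ι}
    {S : Set (Matrix (ι ⊕ ι) (ι ⊕ ι) ℤ)} {k : ℕ} {F : T → ℂ} : F ∈ MIX a ch S k ↔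
    ∃ f ∈ MF ι (8 * k), (∀ γ ∈ S, γ ∈ Cz a → ∀ z, slash k (mz γ) f (ch z) = f (ch z)) ∧
      ∀ z, F z = f (ch z) :=
  ⟨fun ⟨f, hf, e⟩ => ⟨f, hf.1, hf.2, fun z => (congrFun e z).symm⟩,
    fun ⟨f, h1, h2, h3⟩ => ⟨f, ⟨h1, h2⟩, funext fun z => (h3 z).symm⟩⟩

theorem MIX.of_MI {a : α → Matrix (ι ⊕ ι) (ι ⊕ ι) ℤ} {ch : T → HH ι}
    {S : Set (Matrix (ι ⊕ ι) (ι ⊕ ι) ℤ)} {k : ℕ} {f : HH ι → ℂ} (hf : f ∈ MI S k) :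
    (fun z => f (ch z)) ∈ MIX a ch S k :=
  mem_MIX.2 ⟨f, hf.1, fun γ h h' z => congrFun (hf.2 γ h h'.1) (ch z), fun _ => rfl⟩

theorem MIX.one (a : α → Matrix (ι ⊕ ι) (ι ⊕ ι) ℤ) (ch : T → HH ι)
    (S : Set (Matrix (ι ⊕ ι) (ι ⊕ ι) ℤ)) : (1 : T → ℂ) ∈ MIX a ch S 0 :=
  MIX.of_MI (MI.one S)

theorem MIX.mul {a : α → Matrix (ι ⊕ ι) (ι ⊕ ι) ℤ} {ch : T → HH ι}
    {S : Set (Matrix (ι ⊕ ι) (ι ⊕ ι) ℤ)} {k l : ℕ} {F G : T → ℂ} (hF : F ∈ MIX a ch S k)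
    (hG : G ∈ MIX a ch S l) : F * G ∈ MIX a ch S (k + l) := by
  obtain ⟨f, h1, h2, h3⟩ := mem_MIX.1 hF
  obtain ⟨g, h4, h5, h6⟩ := mem_MIX.1 hG
  refine mem_MIX.2 ⟨f * g, by rw [mul_add]; exact MF.mul h1 h4, fun γ h h' z => ?_, fun z => ?_⟩
  · rw [slash_mul_fun, Pi.mul_apply, Pi.mul_apply, h2 γ h h', h5 γ h h']
  · rw [Pi.mul_apply, Pi.mul_apply, h3, h6]

theorem MIX.anti {a : α → Matrix (ι ⊕ ι) (ι ⊕ ι) ℤ} {ch : T → HH ι}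
    {S S' : Set (Matrix (ι ⊕ ι) (ι ⊕ ι) ℤ)} (h : S ⊆ S') (k : ℕ) :
    MIX a ch S' k ≤ MIX a ch S k :=
  Submodule.map_mono fun _ hf => ⟨hf.1, fun γ h1 => hf.2 γ (h h1)⟩

variable [Fintype κ]

/-- `ch` is a holomorphic and proper map from the Siegel space of `κ` onto `X`. -/
structure Chart (X : Set (HH ι)) (ch : HH κ → HH ι) : Prop where
  range : Set.range ch = X
  hol : ∃ Φ : (Sym2 κ → ℂ) → ι → ι → ℂ, DifferentiableOn ℂ Φ {t | InH (smat t)} ∧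
    ∀ (t : Sym2 κ → ℂ) (ht : InH (smat t)), Φ t = (ch ⟨smat t, ht⟩).1
  proper : ∀ K : Set (ι → ι → ℂ), IsCompact K → (∀ τ ∈ K, InH τ) →
    ∃ K' : Set (κ → κ → ℂ), IsCompact K' ∧ (∀ z ∈ K', InH z) ∧
      ∀ z : HH κ, ((ch z).1 : ι → ι → ℂ) ∈ K → (z.1 : κ → κ → ℂ) ∈ K'

end M4.Rx
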