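import Mathlib
import Pool.Agent.Lib.MP_33b3f9_ag.Rx.Defs
import Pool.Agent.Lib.MP_33b3f9_ag.M4.ModPD

/-!
The orthogonal projection to a subspace and the line of forms it defines.
-/

set_option autoImplicit false

namespace M4.Rx

open Complex Matrix

variable {ι : Type} [Fintype ι] [DecidableEq ι] {Y P : Matrix ι ι ℝ} {F : Submodule ℝ (ι → ℝ)}

/-- `P * Y⁻¹` is the projection to `F` that is orthogonal for `Y⁻¹`. -/
structure Pj (Y P : Matrix ι ι ℝ) (F : Submodule ℝ (ι → ℝ)) : Prop where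
  symm : Pᵀ = P
  mem : ∀ x, P *ᵥ x ∈ F
  fix : ∀ f ∈ F, P *ᵥ (Y⁻¹ *ᵥ f) = f

theorem exists_Pj (hY : Y.PosDef) (F : Submodule ℝ (ι → ℝ)) : ∃ P, Pj Y P F := by
  let b := Module.finBasis ℝ F
  let M : Matrix ι (Fin (Module.finrank ℝ F)) ℝ := Matrix.of fun i j => (b j : ι → ℝ) i
  have hM : ∀ y, M *ᵥ y = ((∑ j, y j • b j : F) : ι → ℝ) := fun y => by
    funext i
    simp [M, mulVec, dotProduct, Finset.sum_apply, mul_comm]
  have hinj : Function.Injective M.mulVec := fun y y' h => by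
    rw [hM, hM] at h
    have h1 := Subtype.ext h
    funext j
    have h2 := congrArg (fun v => b.repr v j) h1
    simpa [Finsupp.single_apply] using h2
  have hG := hY.inv.conjTranspose_mul_mul_same hinj
  rw [conjTranspose_eq_transpose_of_trivial] at hG
  have hGs : (Mᵀ * Y⁻¹ * M)⁻¹ᵀ = (Mᵀ * Y⁻¹ * M)⁻¹ := by
    have := hG.inv.1
    rwa [IsHermitian, conjTranspose_eq_transpose_of_trivial] at this
  refine ⟨M * (Mᵀ * Y⁻¹ * M)⁻¹ * Mᵀ, ?_, fun x => ?_, fun f hf => ?_⟩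
  · rw [transpose_mul, transpose_mul, transpose_transpose, hGs, Matrix.mul_assoc M]
  · rw [Matrix.mul_assoc, ← mulVec_mulVec, hM]
    exact Subtype.property _
  · have e : f = M *ᵥ b.repr ⟨f, hf⟩ := by
      rw [hM, b.sum_repr]
    rw [e, mulVec_mulVec, mulVec_mulVec, Matrix.mul_assoc, Matrix.mul_assoc, Matrix.mul_assoc,
      ← Matrix.mul_assoc Mᵀ, nonsing_inv_mul _ hG.det_pos.ne'.isUnit, Matrix.mul_one]

theorem Pj.mul (h : Pj Y P F) {N : Matrix ι ι ℝ} (hN : ∀ x, N *ᵥ x ∈ F) : P * Y⁻¹ * N = N :=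
  Matrix.ext_iff_mulVec.2 fun x => by
    rw [← mulVec_mulVec, ← mulVec_mulVec, h.fix _ (hN x)]

theorem Pj.idem (h : Pj Y P F) : P * Y⁻¹ * P = P := h.mul h.mem

omit [Fintype ι] [DecidableEq ι] in
theorem tr_posDef (hY : Y.PosDef) : Yᵀ = Y := by
  have := hY.1
  rwa [IsHermitian, conjTranspose_eq_transpose_of_trivial] at this

omit [DecidableEq ι] in
theorem psd_nonneg (hY : Y.PosSemidef) (x : ι → ℝ) : 0 ≤ x ⬝ᵥ Y *ᵥ x := by
  simpa using hY.dotProduct_mulVec_nonneg x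

theorem Pj.psd (h : Pj Y P F) (hY : Y.PosDef) : P.PosSemidef := by
  have := hY.inv.posSemidef.conjTranspose_mul_mul_same P
  rwa [conjTranspose_eq_transpose_of_trivial, h.symm, h.idem] at this

theorem Pj.psd_sub (h : Pj Y P F) (hY : Y.PosDef) : (Y - P).PosSemidef := by
  have := hY.inv.posSemidef.conjTranspose_mul_mul_same (Y - P)
  have hu : IsUnit Y.det := hY.det_pos.ne'.isUnit
  rw [conjTranspose_eq_transpose_of_trivial, transpose_sub, h.symm, tr_posDef hY, Matrix.sub_mul,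
    mul_nonsing_inv _ hu, Matrix.sub_mul, Matrix.one_mul, Matrix.mul_sub, h.idem, Matrix.mul_assoc,
    nonsing_inv_mul _ hu, Matrix.mul_one, sub_self, sub_zero] at this
  exact this

omit [DecidableEq ι] in
theorem form_add (Y P : Matrix ι ι ℝ) (s : ℝ) (x : ι → ℝ) :
    x ⬝ᵥ (Y + s • P) *ᵥ x = x ⬝ᵥ Y *ᵥ x + s * x ⬝ᵥ P *ᵥ x := by
  rw [add_mulVec, dotProduct_add, smul_mulVec, dotProduct_smul, smul_eq_mul]

theorem Pj.le (h : Pj Y P F) (hY : Y.PosDef) (x : ι → ℝ) : x ⬝ᵥ P *ᵥ x ≤ x ⬝ᵥ Y *ᵥ x := by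
  have := psd_nonneg (h.psd_sub hY) x
  rwa [sub_mulVec, dotProduct_sub, sub_nonneg] at this

/-- A lower bound on the half line. -/
theorem Pj.low (h : Pj Y P F) (hY : Y.PosDef) {t s : ℝ} (ht1 : t ≤ 1)
    (hs : t - 1 ≤ s) (x : ι → ℝ) : t * x ⬝ᵥ Y *ᵥ x ≤ x ⬝ᵥ (Y + s • P) *ᵥ x := by
  have h1 := psd_nonneg (h.psd hY) x
  have h2 := h.le hY x
  rw [form_add]
  nlinarith [mul_le_mul_of_nonneg_right hs h1, mul_le_mul_of_nonneg_left h2 (sub_nonneg.2 ht1)]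

theorem Pj.posDef (h : Pj Y P F) (hY : Y.PosDef) {s : ℝ} (hs : -1 < s) : (Y + s • P).PosDef := by
  refine PosDef.of_dotProduct_mulVec_pos ?_ fun x hx => ?_
  · rw [IsHermitian, conjTranspose_eq_transpose_of_trivial, transpose_add, transpose_smul, h.symm,
      tr_posDef hY]
  · rw [star_trivial]
    have h1 : 0 < x ⬝ᵥ Y *ᵥ x := by simpa using hY.dotProduct_mulVec_pos hx
    refine lt_of_lt_of_le ?_ (h.low hY (t := min 1 (s + 1)) (min_le_left _ _)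
      (by linarith [min_le_right 1 (s + 1)]) x)
    exact mul_pos (lt_min one_pos (by linarith)) h1

theorem Pj.inv (h : Pj Y P F) (hY : Y.PosDef) {s : ℝ} (hs : -1 < s) :
    (Y + s • P)⁻¹ = Y⁻¹ + (-(s / (1 + s))) • (Y⁻¹ * P * Y⁻¹) := by
  have hu : IsUnit Y.det := hY.det_pos.ne'.isUnit
  have h1 : (1 + s) ≠ 0 := by linarith
  refine inv_eq_right_inv ?_
  have e1 : Y * (Y⁻¹ * P * Y⁻¹) = P * Y⁻¹ := by
    rw [← Matrix.mul_assoc, ← Matrix.mul_assoc, mul_nonsing_inv _ hu, Matrix.one_mul]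
  have e2 : P * (Y⁻¹ * P * Y⁻¹) = P * Y⁻¹ := by
    rw [← Matrix.mul_assoc, ← Matrix.mul_assoc, h.idem]
  rw [Matrix.add_mul, Matrix.mul_add, Matrix.mul_add, mul_nonsing_inv _ hu, Matrix.mul_smul, e1,
    Matrix.smul_mul, Matrix.smul_mul, Matrix.mul_smul, e2, smul_smul, add_assoc, ← add_smul,
    ← add_smul]
  have : -(s / (1 + s)) + (s + s * -(s / (1 + s))) = 0 := by
    field_simp
    ring
  rw [this, zero_smul, add_zero]

/-- Going down the line the dual form grows. -/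
theorem Pj.inv_le (h : Pj Y P F) (hY : Y.PosDef) {s : ℝ} (hs : -1 < s) (hs0 : s ≤ 0)
    (x : ι → ℝ) : x ⬝ᵥ Y⁻¹ *ᵥ x ≤ x ⬝ᵥ (Y + s • P)⁻¹ *ᵥ x := by
  have h1 := (h.psd hY).conjTranspose_mul_mul_same Y⁻¹
  rw [conjTranspose_eq_transpose_of_trivial, tr_posDef hY.inv] at h1
  rw [h.inv hY hs, form_add]
  have h2 : 0 ≤ -(s / (1 + s)) := neg_nonneg.2 (div_nonpos_of_nonpos_of_nonneg hs0 (by linarith))
  exact le_add_of_nonneg_right (mul_nonneg h2 (psd_nonneg h1 x))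

/-- The Cauchy-Schwarz inequality for a form and its dual. -/
theorem cs_dual (hY : Y.PosDef) (u v : ι → ℝ) :
    (u ⬝ᵥ v) ^ 2 ≤ (u ⬝ᵥ Y *ᵥ u) * (v ⬝ᵥ Y⁻¹ *ᵥ v) := by
  have hu : IsUnit Y.det := hY.det_pos.ne'.isUnit
  have e1 : Y *ᵥ (Y⁻¹ *ᵥ v) = v := by rw [mulVec_mulVec, mul_nonsing_inv _ hu, one_mulVec]
  have e2 : (Y⁻¹ *ᵥ v) ⬝ᵥ Y *ᵥ u = u ⬝ᵥ v := by
    rw [dotProduct_mulVec, ← mulVec_transpose, tr_posDef hY, e1, dotProduct_comm]
  have h := discrim_le_zero (a := v ⬝ᵥ Y⁻¹ *ᵥ v) (b := 2 * u ⬝ᵥ v) (c := u ⬝ᵥ Y *ᵥ u) fun l => by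
    have h1 := psd_nonneg hY.posSemidef (u + l • Y⁻¹ *ᵥ v)
    rw [mulVec_add, mulVec_smul, e1, add_dotProduct, dotProduct_add, dotProduct_add,
      smul_dotProduct, smul_dotProduct, dotProduct_smul, dotProduct_smul, e2,
      dotProduct_comm (Y⁻¹ *ᵥ v) v] at h1
    simp only [smul_eq_mul] at h1
    linarith
  rw [discrim] at h
  nlinarith

/-- At the end of the line the form degenerates. -/
theorem Pj.det_sub (h : Pj Y P F) (hY : Y.PosDef) (hF : F ≠ ⊥) : (Y + (-1 : ℝ) • P).det = 0 := by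
  obtain ⟨f, hf, hf0⟩ := Submodule.exists_mem_ne_zero_of_ne_bot hF
  have hu : IsUnit Y.det := hY.det_pos.ne'.isUnit
  have e1 : Y *ᵥ (Y⁻¹ *ᵥ f) = f := by rw [mulVec_mulVec, mul_nonsing_inv _ hu, one_mulVec]
  refine exists_mulVec_eq_zero_iff.1 ⟨Y⁻¹ *ᵥ f, fun h0 => hf0 ?_, ?_⟩
  · rw [← e1, h0, mulVec_zero]
  · rw [add_mulVec, smul_mulVec, e1, h.fix f hf, neg_one_smul, add_neg_cancel]

omit [Fintype ι] [DecidableEq ι] in
theorem line_im (τ : Matrix ι ι ℂ) (P : Matrix ι ι ℝ) (w : ℂ) :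
    (τ + w • P.map ofReal).map im = τ.map im + w.im • P := by
  ext i j
  simp

theorem Pj.inH {τ : Matrix ι ι ℂ} (hτ : InH τ) (h : Pj (τ.map im) P F) {w : ℂ} (hw : -1 < w.im) :
    InH (τ + w • P.map ofReal) := by
  refine ⟨hτ.1.add (IsSymm.smul (IsSymm.map h.symm _) w), ?_⟩
  rw [line_im]
  exact h.posDef hτ.2 hw

/-- If `g` fixes `τ` and preserves `0 ⊕ F`, then it fixes the line. -/
theorem Pj.fixes {τ : Matrix ι ι ℂ} (hτ : InH τ) (h : Pj (τ.map im) P F)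
    {g : Matrix (ι ⊕ ι) (ι ⊕ ι) ℝ} {m : ℝ} (hg : Sim g m) (hm : 0 < m) (hfix : act g τ = τ)
    (hF : ∀ f ∈ F, g.toBlocks₁₂ *ᵥ f = 0 ∧ g.toBlocks₂₂ *ᵥ f ∈ F ∧ g.toBlocks₁₂ᵀ *ᵥ f = 0 ∧
      g.toBlocks₁₁ᵀ *ᵥ f ∈ F) {w : ℂ} (hw : -1 < w.im) :
    act g (τ + w • P.map ofReal) = τ + w • P.map ofReal := by
  have hc := cst_act hg hm hτ
  have hr := rel_act hg hm hτ
  rw [hfix] at hc hr
  refine ((rel_iff_eq_act (den_det_ne_zero hg hm (h.inH hτ hw))).1 ?_).symm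
  have h1 : g.toBlocks₁₂ * P = 0 := Matrix.ext_iff_mulVec.2 fun x => by
    rw [← mulVec_mulVec, (hF _ (h.mem x)).1, zero_mulVec]
  have h2 : P * g.toBlocks₁₂ = 0 := by
    rw [← transpose_eq_zero, transpose_mul, h.symm]
    exact Matrix.ext_iff_mulVec.2 fun x => by
      rw [← mulVec_mulVec, (hF _ (h.mem x)).2.2.1, zero_mulVec]
  have h3 := h.mul (N := g.toBlocks₂₂ * P) fun x => by
    rw [← mulVec_mulVec]
    exact (hF _ (h.mem x)).2.1
  have h4 := congrArg transpose (h.mul (N := g.toBlocks₁₁ᵀ * P) fun x => by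
    rw [← mulVec_mulVec]
    exact (hF _ (h.mem x)).2.2.2)
  simp only [transpose_mul, transpose_transpose, h.symm, tr_posDef hτ.2.inv] at h4
  rw [← fromBlocks_toBlocks g, cst, fromBlocks_multiply, fromBlocks_multiply] at hc
  have h5 := (fromBlocks_inj.1 hc).2.1
  have h6 : g.toBlocks₂₂ * P = P * g.toBlocks₁₁ := by
    have h7 := congrArg (fun N => P * N * P) h5
    simp only [Matrix.mul_add, Matrix.add_mul, Matrix.mul_assoc, h1, Matrix.mul_zero,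
      zero_add] at h7
    rw [← Matrix.mul_assoc P g.toBlocks₁₂, h2, Matrix.zero_mul, add_zero] at h7
    rw [← h3, ← h4]
    simp only [Matrix.mul_assoc]
    exact h7
  have e : ∀ M N : Matrix ι ι ℝ, M.map ofReal * N.map ofReal = (M * N).map ofReal := fun M N =>
    (Matrix.map_mul (f := ofRealHom)).symm
  have h1' : g.toBlocks₁₂.map ofReal * P.map ofReal = 0 := by
    rw [e, h1, Matrix.map_zero _ ofReal_zero]
  have h2' : P.map ofReal * g.toBlocks₁₂.map ofReal = 0 := by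
    rw [e, h2, Matrix.map_zero _ ofReal_zero]
  have h6' : g.toBlocks₂₂.map ofReal * P.map ofReal = P.map ofReal * g.toBlocks₁₁.map ofReal := by
    rw [e, e, h6]
  rw [Rel, jf] at hr ⊢
  simp only [Matrix.add_mul, Matrix.mul_add, Matrix.smul_mul, Matrix.mul_smul, h2', h6', smul_zero,
    add_zero, Matrix.mul_assoc, h1', Matrix.mul_zero, zero_add] at hr ⊢
  rw [← hr]
  abel

end M4.Rx
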