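import Mathlib
import Pool.Agent.Lib.MP_33b3f9_ag.Rx.Pj

/-!
The retraction of the fixed locus to its thick part.
-/

set_option autoImplicit false

namespace M4.Rx

open Complex Matrix

variable {ι α : Type} [Fintype ι] [DecidableEq ι] {Y P : Matrix ι ι ℝ}
  {F : Submodule ℝ (ι → ℝ)} {τ : Matrix ι ι ℂ} {c ρ : ℝ}

/-- The form `Y` is at least `c` on the non zero integral vectors. -/
def Mn (c : ℝ) (Y : Matrix ι ι ℝ) : Prop := ∀ n : ι → ℤ, n ≠ 0 → c ≤ rz n ⬝ᵥ Y *ᵥ rz n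

/-- The span of the integral vectors that are short for the dual form. -/
noncomputable def Sh (Y : Matrix ι ι ℝ) (ρ : ℝ) : Submodule ℝ (ι → ℝ) :=
  Submodule.span ℝ {x | (∃ n : ι → ℤ, x = rz n) ∧ x ⬝ᵥ Y⁻¹ *ᵥ x ≤ ρ}

theorem Sh_mono {Y' : Matrix ι ι ℝ} {ρ' : ℝ} (h : ∀ x, x ⬝ᵥ Y⁻¹ *ᵥ x ≤ x ⬝ᵥ Y'⁻¹ *ᵥ x)
    (hρ : ρ' ≤ ρ) : Sh Y' ρ' ≤ Sh Y ρ :=
  Submodule.span_mono fun x hx => ⟨hx.1, ((h x).trans hx.2).trans hρ⟩

omit [Fintype ι] [DecidableEq ι] in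
theorem rz_eq_zero {n : ι → ℤ} : rz n = 0 ↔ n = 0 :=
  ⟨fun h => funext fun i => by simpa [rz] using congrFun h i, fun h => by
    funext i
    simp [rz, h]⟩

theorem Mn_of_bot (h : Sh Y ρ = ⊥) : Mn ρ Y⁻¹ := fun n hn => by
  by_contra h1
  have h2 : rz n ∈ Sh Y ρ := Submodule.subset_span ⟨⟨n, rfl⟩, (not_le.1 h1).le⟩
  rw [h, Submodule.mem_bot] at h2
  exact hn (rz_eq_zero.1 h2)

theorem Qf_elim (hτ : InH τ) (x : ι → ℝ) : Qf τ (Sum.elim 0 x) = x ⬝ᵥ (τ.map im)⁻¹ *ᵥ x := by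
  have e1 : (fun i => Sum.elim (0 : ι → ℝ) x (Sum.inl i)) = 0 := rfl
  have e2 : (fun i => Sum.elim (0 : ι → ℝ) x (Sum.inr i)) = x := rfl
  rw [Mo.Qf_eq hτ, e1, e2, zero_dotProduct, mulVec_zero, zero_add, zero_add]

/-- Short vectors lie in the second half. -/
theorem short (hτ : InH τ) (hc : Mn c (τ.map im)) (hρ : ρ < c) {p q : ι → ℝ}
    (hy : ∃ v : ι ⊕ ι → ℤ, Sum.elim p q = rz v) (h : Qf τ (Sum.elim p q) ≤ ρ) :
    p = 0 ∧ q ∈ Sh (τ.map im) ρ := by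
  obtain ⟨v, hv⟩ := hy
  have hp : p = rz (v ∘ Sum.inl) := funext fun i => congrFun hv (Sum.inl i)
  have hq : q = rz (v ∘ Sum.inr) := funext fun i => congrFun hv (Sum.inr i)
  have h0 : p = 0 := by
    by_contra h0
    have h1 := hc (v ∘ Sum.inl) fun e => h0 (by rw [hp, rz_eq_zero.2 e])
    have e1 : (fun i => Sum.elim p q (Sum.inl i)) = p := rfl
    rw [Mo.Qf_eq hτ, e1] at h
    rw [← hp] at h1
    linarith [psd_nonneg hτ.2.inv.posSemidef (τ.map re *ᵥ p + fun i => Sum.elim p q (Sum.inr i))]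
  rw [h0, Qf_elim hτ] at h
  exact ⟨h0, Submodule.subset_span ⟨⟨_, hq⟩, h⟩⟩

/-- If the span of the short vectors does not grow, it is stable. -/
theorem stable (hτ : InH τ) (hc : Mn c (τ.map im)) (hρ : ρ < c) (hρ0 : 0 ≤ ρ)
    {a : Matrix (ι ⊕ ι) (ι ⊕ ι) ℤ} {m m0 : ℝ} (ha : Sim (mz a) m) (hm : 0 < m) (hm0 : m ≤ m0)
    (hfix : act (mz a) τ = τ) : ∀ f ∈ Sh (τ.map im) (ρ / m0),
      (mz a).toBlocks₁₂ *ᵥ f = 0 ∧ (mz a).toBlocks₂₂ *ᵥ f ∈ Sh (τ.map im) ρ ∧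
      (mz a).toBlocks₁₂ᵀ *ᵥ f = 0 ∧ (mz a).toBlocks₁₁ᵀ *ᵥ f ∈ Sh (τ.map im) ρ := by
  intro f hf
  induction hf using Submodule.span_induction with
  | zero => simp
  | add x y _ _ hx hy =>
    simp only [mulVec_add, hx.1, hy.1, hx.2.2.1, hy.2.2.1, add_zero, true_and]
    exact ⟨add_mem hx.2.1 hy.2.1, add_mem hx.2.2.2 hy.2.2.2⟩
  | smul r x _ hx =>
    simp only [mulVec_smul, hx.1, hx.2.2.1, smul_zero, true_and]
    exact ⟨Submodule.smul_mem _ _ hx.2.1, Submodule.smul_mem _ _ hx.2.2.2⟩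
  | mem x hx =>
    obtain ⟨⟨n, rfl⟩, hn⟩ := hx
    have hQ : ∀ y, Qf τ (mz a *ᵥ y) = m * Qf τ y := fun y => by
      have := Mo.Qf_act ha hm hτ y
      rwa [hfix] at this
    have hle : m * (rz n ⬝ᵥ (τ.map im)⁻¹ *ᵥ rz n) ≤ ρ := by
      have h1 : 0 < m0 := hm.trans_le hm0
      rw [le_div_iff₀ h1] at hn
      nlinarith [psd_nonneg hτ.2.inv.posSemidef (rz n)]
    have e0 : Sum.elim (0 : ι → ℝ) (rz n) = rz (Sum.elim 0 n) := by
      funext i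
      rcases i with i | i <;> simp [rz]
    have e1 : mz a *ᵥ Sum.elim 0 (rz n) =
        Sum.elim ((mz a).toBlocks₁₂ *ᵥ rz n) ((mz a).toBlocks₂₂ *ᵥ rz n) := by
      conv_lhs => rw [← fromBlocks_toBlocks (mz a), fromBlocks_mulVec]
      simp
    have h1 := short (p := (mz a).toBlocks₁₂ *ᵥ rz n) (q := (mz a).toBlocks₂₂ *ᵥ rz n) hτ hc hρ
      ⟨_, by rw [← e1, e0, thmod_rz]⟩ (by rw [← e1, hQ, Qf_elim hτ]; exact hle)
    have e2 : J ι ℝ *ᵥ ((mz a)ᵀ *ᵥ Sum.elim (rz n) 0) =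
        Sum.elim (-((mz a).toBlocks₁₂ᵀ *ᵥ rz n)) ((mz a).toBlocks₁₁ᵀ *ᵥ rz n) := by
      conv_lhs => rw [← fromBlocks_toBlocks (mz a), fromBlocks_transpose, fromBlocks_mulVec, J,
        fromBlocks_mulVec]
      simp [neg_mulVec]
    have e3 : mz a *ᵥ (J ι ℝ *ᵥ ((mz a)ᵀ *ᵥ Sum.elim (rz n) 0)) =
        m • Sum.elim (0 : ι → ℝ) (rz n) := by
      have h2 := sim_iff.1 (ha.transpose hm.ne')
      rw [transpose_transpose] at h2
      rw [mulVec_mulVec, mulVec_mulVec, h2, smul_mulVec, J, fromBlocks_mulVec]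
      simp
    have e4 : J ι ℝ *ᵥ ((mz a)ᵀ *ᵥ Sum.elim (rz n) 0) =
        rz (J ι ℤ *ᵥ (aᵀ *ᵥ Sum.elim n 0)) := by
      have e5 : Sum.elim (rz n) (0 : ι → ℝ) = rz (Sum.elim n 0) := by
        funext i
        rcases i with i | i <;> simp [rz]
      have e6 : J ι ℝ = mz (J ι ℤ) := (map_J ι (Int.castRingHom ℝ)).symm
      rw [e5, e6, ← thmod_rz, ← thmod_rz]
      rfl
    have h2 := short (p := -((mz a).toBlocks₁₂ᵀ *ᵥ rz n)) (q := (mz a).toBlocks₁₁ᵀ *ᵥ rz n) hτ hc hρ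
      ⟨_, by rw [← e2, e4]⟩ (by
        have h3 := hQ (J ι ℝ *ᵥ ((mz a)ᵀ *ᵥ Sum.elim (rz n) 0))
        rw [e3, Mo.Qf_smul, Qf_elim hτ, e2, sq, mul_assoc] at h3
        rw [← mul_left_cancel₀ hm.ne' h3]
        exact hle)
    exact ⟨h1.1, h1.2, neg_eq_zero.1 h2.1, h2.2⟩

/-- The last point of the form `t = 2⁻¹ ^ j` at which the minimum is still at least `c`. -/
theorem Pj.exists_step (h : Pj Y P F) (hY : Y.PosDef) (hF : F ≠ ⊥) (hc0 : 0 < c) (hc : Mn c Y) :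
    ∃ t : ℝ, 0 < t ∧ t ≤ 1 ∧ Mn c (Y + (t - 1) • P) ∧ ∃ u : ι → ℤ, P *ᵥ rz u ≠ 0 ∧
      rz u ⬝ᵥ (Y + (t - 1) • P) *ᵥ rz u < 2 * c := by
  classical
  have hex : ∃ j : ℕ, ¬ Mn c (Y + ((1 / 2 : ℝ) ^ j - 1) • P) := by
    by_contra hn
    push Not at hn
    obtain ⟨δ, hδ, H⟩ := det_low ι hc0
    have h1 : Continuous fun s : ℝ => (Y + (s - 1) • P).det := by fun_prop
    have h2 := (h1.tendsto 0).comp
      (tendsto_pow_atTop_nhds_zero_of_lt_one (r := (1 / 2 : ℝ)) (by norm_num) (by norm_num))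
    rw [zero_sub, h.det_sub hY hF] at h2
    refine absurd (ge_of_tendsto' h2 fun j => H _ (h.posDef hY ?_) (hn j)) (not_le.2 hδ)
    have : (0 : ℝ) < (1 / 2) ^ j := by positivity
    linarith
  have h0 : Nat.find hex ≠ 0 := fun e => by
    have := Nat.find_spec hex
    rw [e, pow_zero, sub_self, zero_smul, add_zero] at this
    exact this hc
  obtain ⟨j, hj⟩ := Nat.exists_eq_succ_of_ne_zero h0
  have h1 := Nat.find_spec hex
  have h2 := not_not.1 (Nat.find_min hex (m := j) (by omega))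
  rw [hj, Mn] at h1
  push Not at h1
  obtain ⟨u, hu, h3⟩ := h1
  have h4 := h2 u hu
  have h5 := h.le hY (rz u)
  rw [form_add] at h3 h4
  rw [Nat.succ_eq_add_one, pow_succ] at h3
  refine ⟨(1 / 2) ^ j, by positivity, pow_le_one₀ (by norm_num) (by norm_num), h2, u,
    fun e => ?_, ?_⟩
  · rw [e, dotProduct_zero] at h3 h4
    linarith
  · rw [form_add]
    linarith

/-- At this point the span of the short vectors is smaller. -/
theorem Pj.drop (h : Pj Y P F) (hY : Y.PosDef) {s : ℝ} (hs : -1 < s) (hρ : 2 * c * ρ < 1)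
    (hρ0 : 0 ≤ ρ) {u : ι → ℤ} (hu : P *ᵥ rz u ≠ 0) (hu' : rz u ⬝ᵥ (Y + s • P) *ᵥ rz u < 2 * c) :
    Sh (Y + s • P) ρ ≠ F := fun e => by
  have hZ := h.posDef hY hs
  have h1 : ∀ f ∈ Sh (Y + s • P) ρ, rz u ⬝ᵥ f = 0 := fun f hf => by
    induction hf using Submodule.span_induction with
    | zero => simp
    | add x y _ _ hx hy => rw [dotProduct_add, hx, hy, add_zero]
    | smul r x _ hx => rw [dotProduct_smul, hx, smul_zero]
    | mem x hx =>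
      obtain ⟨⟨n, rfl⟩, hn⟩ := hx
      have h2 := cs_dual hZ (rz u) (rz n)
      have h3 : rz u ⬝ᵥ rz n = ((u ⬝ᵥ n : ℤ) : ℝ) := by simp [rz, dotProduct]
      have h4 := psd_nonneg hZ.posSemidef (rz u)
      have h5 := psd_nonneg hZ.inv.posSemidef (rz n)
      have h6 : ((u ⬝ᵥ n : ℤ) : ℝ) ^ 2 < 1 := by
        rw [← h3]
        nlinarith [mul_le_mul_of_nonneg_left hn h4, mul_le_mul_of_nonneg_right hu'.le hρ0]
      have h7 : (u ⬝ᵥ n) ^ 2 < 1 := by exact_mod_cast h6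
      rw [h3, Int.cast_eq_zero]
      nlinarith
  refine hu (dotProduct_self_eq_zero.1 ?_)
  rw [dotProduct_comm, dotProduct_mulVec, ← mulVec_transpose, h.symm, dotProduct_comm]
  exact h1 _ (e ▸ h.mem _)

/-- The maximum principle on the half plane. -/
theorem Pj.max {n : ℕ} {f : HH ι → ℂ} (hf : f ∈ MF ι n) (τ : HH ι) (h : Pj (τ.1.map im) P F)
    {t M : ℝ} (ht : 0 < t) (ht1 : t ≤ 1) (hM : ∀ (w : ℂ) (σ : HH ι), w.im = t - 1 →
      σ.1 = τ.1 + w • P.map ofReal → ‖f σ‖ ≤ M) : ‖f τ‖ ≤ M := by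
  obtain ⟨G, hG, hG'⟩ := MF.hol hf
  obtain ⟨c, hc, hc'⟩ := Pool.Agent.Lib.MP_07b2d0_nt.Sch.coercive τ.2.2
  obtain ⟨C, hC⟩ := MF.bound hf (mul_pos ht hc)
  have him : ∀ z : ℂ, (I * z + ((t - 1 : ℝ) : ℂ) * I).im = z.re + (t - 1) := fun z => by simp
  have hσ : ∀ z : ℂ, 0 ≤ z.re → InH (τ.1 + (I * z + ((t - 1 : ℝ) : ℂ) * I) • P.map ofReal) :=
    fun z hz => h.inH τ.2 (by rw [him]; linarith)
  obtain ⟨l, hl⟩ : ∃ l : ℂ → ι → ι → ℂ,
      l = fun z i j => (τ.1 + (I * z + ((t - 1 : ℝ) : ℂ) * I) • P.map ofReal) i j := ⟨_, rfl⟩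
  have hd : Differentiable ℂ l := by
    simp only [hl, Matrix.add_apply, Matrix.smul_apply, smul_eq_mul]
    fun_prop
  have hval : ∀ z (hz : 0 ≤ z.re), G (l z) = f ⟨_, hσ z hz⟩ := fun z hz => by rw [hG', hl]
  have hbd : ∀ z : ℂ, 0 ≤ z.re → ‖G (l z)‖ ≤ C := fun z hz => by
    rw [hval z hz]
    refine hC _ fun v => ?_
    rw [line_im]
    refine le_trans ?_ (h.low τ.2.2 ht1 (by rw [him]; linarith) v)
    rw [mul_assoc]
    refine mul_le_mul_of_nonneg_left (le_of_eq_of_le ?_ ((hc' v).trans_eq ?_)) ht.le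
    · simp [dotProduct, sq]
    · simp only [dotProduct, mulVec, Finset.mul_sum]
      exact Finset.sum_congr rfl fun i _ => Finset.sum_congr rfl fun j _ => by ring
  have hPL := PhragmenLindelof.right_half_plane_of_bounded_on_real (f := fun z => G (l z))
    (C := M) (z := ((1 - t : ℝ) : ℂ))
    (DifferentiableOn.diffContOnCl (by
      rw [closure_setOfPred_lt_re]
      exact hG.comp hd.differentiableOn fun z hz => by rw [hl]; exact (hσ z hz).posIm))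
    ⟨0, two_pos, 0, Asymptotics.IsBigO.of_bound C (by
      refine Filter.eventually_inf_principal.2 (Filter.Eventually.of_forall fun z hz => ?_)
      simpa using hbd z (le_of_lt hz))⟩
    ⟨C, by
      rw [Filter.eventually_map]
      filter_upwards [Filter.eventually_ge_atTop 0] with x hx
      exact hbd x (by simpa using hx)⟩
    (fun x => by
      have hx : 0 ≤ ((x : ℂ) * I).re := by simp
      rw [hval _ hx]
      exact hM _ _ (by rw [him]; simp) rfl)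
    (by simpa using ht1)
  have hb' : 0 ≤ ((1 - t : ℝ) : ℂ).re := by simpa using ht1
  have h3 : (⟨_, hσ _ hb'⟩ : HH ι) = τ := Subtype.ext (by
    change τ.1 + (I * ((1 - t : ℝ) : ℂ) + ((t - 1 : ℝ) : ℂ) * I) • P.map ofReal = τ.1
    rw [show I * ((1 - t : ℝ) : ℂ) + ((t - 1 : ℝ) : ℂ) * I = 0 by push_cast; ring, zero_smul,
      add_zero])
  rwa [hval _ hb', h3] at hPL

/-- The retraction. -/
theorem retract {a : α → Matrix (ι ⊕ ι) (ι ⊕ ι) ℤ} {m : α → ℝ} {m0 : ℝ} (hm : ∀ i, 0 < m i)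
    (hm0 : ∀ i, m i ≤ m0) (h1 : 1 ≤ m0) (ha : ∀ i, Sim (mz (a i)) (m i)) (hc0 : 0 < c) {n : ℕ}
    {f : HH ι → ℂ} (hf : f ∈ MF ι n) {M : ℝ} (d : ℕ) : ∀ ρ : ℝ, 0 ≤ ρ → ρ < c → 2 * c * ρ < 1 →
      (∀ σ ∈ Fx a, Mn c (σ.1.map im) → Mn (ρ / m0 ^ d) (σ.1.map im)⁻¹ → ‖f σ‖ ≤ M) →
      ∀ τ ∈ Fx a, Mn c (τ.1.map im) → Module.finrank ℝ (Sh (τ.1.map im) ρ) ≤ d → ‖f τ‖ ≤ M := by
  induction d with
  | zero =>
    intro ρ _ _ _ hM τ hτ hc hd
    refine hM τ hτ hc ?_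
    rw [pow_zero, div_one]
    exact Mn_of_bot (Submodule.finrank_eq_zero.1 (Nat.le_zero.1 hd))
  | succ d ih =>
    intro ρ hρ0 hρ hρ2 hM τ hτ hc hd
    have hle : ρ / m0 ≤ ρ := div_le_self hρ0 h1
    have hρ0' : 0 ≤ ρ / m0 := div_nonneg hρ0 (by linarith)
    have hρ2' : 2 * c * (ρ / m0) < 1 := (mul_le_mul_of_nonneg_left hle (by linarith)).trans_lt hρ2
    have ih' := ih (ρ / m0) hρ0' (hle.trans_lt hρ) hρ2' fun σ h2 h3 h4 =>
      hM σ h2 h3 (by rwa [div_div, ← pow_succ'] at h4)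
    by_cases hd' : Module.finrank ℝ (Sh (τ.1.map im) (ρ / m0)) ≤ d
    · exact ih' τ hτ hc hd'
    have e : Sh (τ.1.map im) (ρ / m0) = Sh (τ.1.map im) ρ :=
      Submodule.eq_of_le_of_finrank_le (Sh_mono (fun _ => le_rfl) hle) (by omega)
    obtain ⟨P, hP⟩ := exists_Pj τ.2.2 (Sh (τ.1.map im) (ρ / m0))
    obtain ⟨t, ht, ht1, h2, u, hu, hu'⟩ := hP.exists_step τ.2.2
      (fun h0 => hd' (by rw [h0, finrank_bot]; exact Nat.zero_le _)) hc0 hc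
    refine hP.max hf τ ht ht1 fun w σ hw hσ => ?_
    have h3 : σ.1.map im = τ.1.map im + (t - 1) • P := by rw [hσ, line_im, hw]
    refine ih' σ (fun i => ?_) (by rwa [h3]) ?_
    · rw [hσ]
      refine hP.fixes τ.2 (ha i) (hm i) (hτ i) (fun x hx => ?_) (by linarith)
      have := stable τ.2 hc hρ hρ0 (ha i) (hm i) (hm0 i) (hτ i) x hx
      rwa [← e] at this
    · rw [h3]
      have h4 := Submodule.finrank_lt_finrank_of_lt (lt_of_le_of_ne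
        (Sh_mono (hP.inv_le τ.2.2 (s := t - 1) (by linarith) (by linarith)) le_rfl)
        (hP.drop τ.2.2 (by linarith) hρ2' hρ0' hu hu'))
      rw [← e] at hd
      omega

end M4.Rx
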