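import Mathlib
import Pool.Agent.Lib.MP_33b3f9_ag.Rx.Ret

/-!
Thick points reduce into a compact set.
-/

set_option autoImplicit false

namespace M4.Rx

open Complex Matrix

variable {ι α : Type} [Fintype ι] [DecidableEq ι]

theorem Mn.diag {c : ℝ} {Z : Matrix ι ι ℝ} (h : Mn c Z) {U U' : Matrix ι ι ℤ} (hU : U' * U = 1)
    (i : ι) : c ≤ ((U.map (Int.cast : ℤ → ℝ))ᵀ * Z * U.map (Int.cast : ℤ → ℝ)) i i := by
  refine (h (fun k => U k i) fun e => ?_).trans (le_of_eq ?_)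
  · have := congrFun (congrFun hU i) i
    simp [Matrix.mul_apply, show ∀ k, U k i = 0 from congrFun e] at this
  · rw [Matrix.mul_assoc]
    rfl

omit [DecidableEq ι] in
theorem NN_pos {τ : Matrix ι ι ℂ} (hτ : InH τ) : 0 < NN τ := by
  obtain ⟨c, hc, h⟩ := NN_low ι
  exact hc.trans_le (h τ hτ)

theorem thick_red (ι : Type) [Fintype ι] [DecidableEq ι] {c ρ : ℝ} (hc : 0 < c) (hρ : 0 < ρ) :
    ∃ (K : Set (ι → ι → ℂ)) (C : ℝ), IsCompact K ∧ (∀ τ ∈ K, InH τ) ∧ ∀ τ : Matrix ι ι ℂ, InH τ →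
      Mn c (τ.map im) → Mn ρ (τ.map im)⁻¹ → NN τ ≤ C ∧
        ∃ γ ∈ symplecticGroup ι ℤ, (act (mz γ) τ : ι → ι → ℂ) ∈ K := by
  obtain ⟨c1, hc1, hred⟩ := mat_red ι
  obtain ⟨C, hC⟩ := NN_up (ι := ι) (mul_pos hc1 hc)
  refine ⟨_, C, Mo.isCompact_Red (lt_min hc1 hc) (1 / (c1 * ρ)), fun τ h => h.1,
    fun τ hτ h1 h2 => ?_⟩
  obtain ⟨U, U', hU, hq⟩ := hred _ hτ.2
  have hU' : U' * U = 1 := mul_eq_one_comm.1 hU
  set w := (U.map (Int.cast : ℤ → ℂ))ᵀ * τ * U.map (Int.cast : ℤ → ℂ) with hw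
  have hws : w.IsSymm := by
    rw [IsSymm, hw, transpose_mul, transpose_mul, transpose_transpose, hτ.1.eq, Matrix.mul_assoc]
  obtain ⟨γ, hγ, ha⟩ := exists_affine (C := Matrix.of fun i j => round (w i j).re) hU
    (by ext i j; simp only [transpose_apply, of_apply, hws.apply i j])
  have him : (act (mz γ) τ).map im =
      (U.map (Int.cast : ℤ → ℝ))ᵀ * τ.map im * U.map (Int.cast : ℤ → ℝ) := by
    rw [ha]
    ext i j
    simp [hw, Matrix.mul_apply, im_sum]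
  have hH := inH_act (sim_mz_iff.2 hγ) one_pos hτ
  have hlow := h1.diag hU'
  have hup := h2.diag (U := U'ᵀ) (U' := Uᵀ) (by rw [← transpose_mul, hU', transpose_one])
  have e : ∀ M N : Matrix ι ι ℤ, M * N = 1 →
      M.map (Int.cast : ℤ → ℝ) * N.map (Int.cast : ℤ → ℝ) = 1 := fun M N h => by
    refine (Matrix.map_mul (f := Int.castRingHom ℝ)).symm.trans ?_
    rw [h]
    exact Matrix.map_one _ (map_zero _) (map_one _)
  have hinv : ((act (mz γ) τ).map im)⁻¹ = (U'ᵀ.map (Int.cast : ℤ → ℝ))ᵀ * (τ.map im)⁻¹ *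
      U'ᵀ.map (Int.cast : ℤ → ℝ) := by
    refine inv_eq_right_inv ?_
    rw [him, transpose_map, transpose_transpose]
    simp only [Matrix.mul_assoc]
    rw [← Matrix.mul_assoc (U.map _), e _ _ hU, Matrix.one_mul, ← Matrix.mul_assoc (τ.map im),
      mul_nonsing_inv _ hτ.2.det_pos.ne'.isUnit, Matrix.one_mul, ← transpose_mul, e _ _ hU',
      transpose_one]
  rw [← him] at hq hlow
  rw [← hinv] at hup
  have hdet : ((act (mz γ) τ).map im).det = (τ.map im).det := by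
    have h3 := congrArg Matrix.det (e _ _ hU)
    have h4 : U.det * U.det = 1 := by
      have h3 := congrArg Matrix.det hU
      rw [det_mul, det_one] at h3
      rcases Int.eq_one_or_neg_one_of_mul_eq_one h3 with h | h <;> simp [h]
    have h5 : (U.map (Int.cast : ℤ → ℝ)).det = (U.det : ℝ) := ((Int.castRingHom ℝ).map_det U).symm
    have h6 : (U.det : ℝ) * U.det = 1 := by exact_mod_cast h4
    rw [him, det_mul, det_mul, det_transpose, h5]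
    linear_combination (τ.map im).det * h6
  have hnn : ∀ v : ι → ℝ, 0 ≤ ∑ i, ((act (mz γ) τ).map im) i i * v i ^ 2 := fun v =>
    Finset.sum_nonneg fun i _ => mul_nonneg (hc.le.trans (hlow i)) (sq_nonneg _)
  refine ⟨?_, γ, hγ, hH, ⟨fun i j => ?_, fun i => (min_le_right _ _).trans (hlow i), fun v =>
    le_trans (mul_le_mul_of_nonneg_right (min_le_left _ _) (hnn v)) (hq v)⟩, fun i => ?_⟩
  · have h3 := det_im_act hγ hτ
    rw [hdet] at h3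
    have h4 : ‖(den (mz γ) τ).det‖ ^ 2 = 1 :=
      mul_left_cancel₀ hτ.2.det_pos.ne' (h3.trans (mul_one _).symm)
    have h5 := NN_act hγ hτ
    rw [wt_mz hγ, norm_pow, show 4 = 2 * 2 from rfl, pow_mul, h4, one_pow, one_mul] at h5
    rw [← (pow_left_inj₀ (NN_pos hH).le (NN_pos hτ).le (by norm_num)).1 h5]
    refine hC _ hH fun v => le_trans ?_ (hq v)
    rw [mul_assoc, dotProduct, Finset.mul_sum]
    refine mul_le_mul_of_nonneg_left (Finset.sum_le_sum fun i _ => ?_) hc1.le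
    rw [← sq]
    exact mul_le_mul_of_nonneg_right (hlow i) (sq_nonneg _)
  · rw [ha]
    refine le_trans ?_ (show (1 / 2 : ℝ) ≤ 1 by norm_num)
    simpa using abs_sub_round (w i j).re
  · set Z := (act (mz γ) τ).map im with hZ
    have h3 := hq (Z⁻¹ *ᵥ Pi.single i 1)
    rw [mulVec_mulVec, mul_nonsing_inv _ hH.2.det_pos.ne'.isUnit, one_mulVec, dotProduct_single,
      mul_one] at h3
    have h4 : (Z⁻¹ *ᵥ Pi.single i 1) i = Z⁻¹ i i := by rw [mulVec_single_one]; rfl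
    have h5 := Finset.single_le_sum (f := fun j => Z j j * (Z⁻¹ *ᵥ Pi.single i 1) j ^ 2)
      (fun j _ => mul_nonneg (hc.le.trans (hlow j)) (sq_nonneg _)) (Finset.mem_univ i)
    have h6 := (mul_le_mul_of_nonneg_left h5 hc1.le).trans h3
    simp only [h4] at h6
    have h7 := hup i
    have h8 : 0 < Z⁻¹ i i := hρ.trans_le h7
    have h9 : c1 * (Z i i * Z⁻¹ i i) ≤ 1 := by
      refine le_of_mul_le_mul_right ?_ h8
      linarith
    change Z i i ≤ _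
    rw [le_div_iff₀ (mul_pos hc1 hρ)]
    nlinarith [mul_le_mul_of_nonneg_left h7 (mul_nonneg hc1.le (hc.le.trans (hlow i)))]

/-- The action of the integral symplectic group on the Siegel space as a type. -/
noncomputable def sH (γ : SpZ ι) (τ : HH ι) : HH ι := aH (mz γ.1) τ

theorem sim_sp (γ : SpZ ι) : Sim (mz γ.1) 1 := sim_mz_iff.2 γ.2

theorem sH_val (γ : SpZ ι) (τ : HH ι) : (sH γ τ).1 = act (mz γ.1) τ.1 := aH_val (sim_sp γ) one_pos τ

theorem sH_mul (γ δ : SpZ ι) (τ : HH ι) : sH (γ * δ) τ = sH γ (sH δ τ) := by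
  rw [sH, Submonoid.coe_mul, mz_mul, aH_mul (sim_sp γ) one_pos (sim_sp δ) one_pos]
  rfl

theorem sH_one (τ : HH ι) : sH 1 τ = τ := Subtype.ext (by
  rw [sH_val, OneMemClass.coe_one, vlvan0_mz_one, act_one])

theorem sH_inv (γ : SpZ ι) (τ : HH ι) : sH γ⁻¹ (sH γ τ) = τ := by
  rw [← sH_mul, inv_mul_cancel, sH_one]

/-- The conjugate family. -/
noncomputable def cj (γ : SpZ ι) (a : α → Matrix (ι ⊕ ι) (ι ⊕ ι) ℤ) :
    α → Matrix (ι ⊕ ι) (ι ⊕ ι) ℤ := fun i => γ.1 * a i * γ⁻¹.1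

theorem cj_mul (γ δ : SpZ ι) (a : α → Matrix (ι ⊕ ι) (ι ⊕ ι) ℤ) :
    cj (γ * δ) a = cj γ (cj δ a) := by
  funext i
  simp only [cj, _root_.mul_inv_rev, Submonoid.coe_mul, Matrix.mul_assoc]

theorem cj_one (a : α → Matrix (ι ⊕ ι) (ι ⊕ ι) ℤ) : cj 1 a = a := by
  funext i
  simp only [cj, inv_one, OneMemClass.coe_one, Matrix.mul_one, Matrix.one_mul]

theorem cj_comm (γ : SpZ ι) (a : α → Matrix (ι ⊕ ι) (ι ⊕ ι) ℤ) (i : α) :
    γ.1 * a i = cj γ a i * γ.1 := by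
  rw [cj, Matrix.mul_assoc, ← Submonoid.coe_mul, inv_mul_cancel, OneMemClass.coe_one,
    Matrix.mul_one]

theorem mem_Cz {γ : SpZ ι} {a : α → Matrix (ι ⊕ ι) (ι ⊕ ι) ℤ} : γ.1 ∈ Cz a ↔ cj γ a = a := by
  refine ⟨fun h => funext fun i => ?_, fun h => ⟨γ.2, fun i => by rw [cj_comm, h]⟩⟩
  rw [cj, h.2, Matrix.mul_assoc, ← Submonoid.coe_mul, mul_inv_cancel, OneMemClass.coe_one,
    Matrix.mul_one]

variable {a : α → Matrix (ι ⊕ ι) (ι ⊕ ι) ℤ} {m : α → ℝ}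

theorem sim_cj (ha : ∀ i, Sim (mz (a i)) (m i)) (γ : SpZ ι) (i : α) :
    Sim (mz (cj γ a i)) (m i) := by
  have := ((sim_sp γ).mul (ha i)).mul (sim_sp γ⁻¹)
  rwa [one_mul, mul_one, ← mz_mul, ← mz_mul] at this

theorem fx_cj (hm : ∀ i, 0 < m i) (ha : ∀ i, Sim (mz (a i)) (m i)) (γ : SpZ ι) {τ : HH ι}
    (hτ : τ ∈ Fx a) : sH γ τ ∈ Fx (cj γ a) := fun i => by
  rw [sH_val, ← Mo.act_mul (sim_cj ha γ i) (hm i) (sim_sp γ) one_pos τ.2, ← mz_mul, ← cj_comm,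
    mz_mul, Mo.act_mul (sim_sp γ) one_pos (ha i) (hm i) τ.2, hτ i]

/-- `f` is bounded by `M` at `τ`, relative to the theta function. -/
def Le (k : ℕ) (f : HH ι → ℂ) (M : ℝ) (τ : HH ι) : Prop := ‖f τ‖ ≤ M * NN τ.1 ^ (8 * k)

theorem le_slash {k : ℕ} {f : HH ι → ℂ} {M : ℝ} (γ : SpZ ι) (τ : HH ι) :
    Le k (slash k (mz γ.1) f) M τ ↔ Le k f M (sH γ τ) := by
  have hw : 0 < ‖wt (mz γ.1) τ.1‖ ^ k :=
    pow_pos (norm_pos_iff.2 (wt_ne_zero (sim_sp γ) one_pos τ.2)) k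
  rw [Le, Le, slash_apply, norm_div, norm_pow, div_le_iff₀ hw, sH_val, pow_mul, pow_mul,
    NN_act γ.2 τ.2, mul_pow, mul_assoc, mul_comm (‖_‖ ^ k)]
  rfl

theorem exists_m0 [Finite α] (m : α → ℝ) : ∃ m0 : ℝ, 1 ≤ m0 ∧ ∀ i, m i ≤ m0 := by
  obtain ⟨b, hb⟩ := (Set.finite_range m).bddAbove
  exact ⟨max 1 b, le_max_left _ _, fun i => (hb ⟨i, rfl⟩).trans (le_max_right _ _)⟩

/-- A bound over a compact set gives a bound on the whole fixed locus. -/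
theorem bound_all (ι : Type) [Fintype ι] [DecidableEq ι] [Finite α] (hm : ∀ i, 0 < m i) :
    ∃ (K : Set (ι → ι → ℂ)) (C : ℝ), IsCompact K ∧ (∀ τ ∈ K, InH τ) ∧ 0 ≤ C ∧
      ∀ a : α → Matrix (ι ⊕ ι) (ι ⊕ ι) ℤ, (∀ i, Sim (mz (a i)) (m i)) →
      ∀ (k : ℕ) (f : HH ι → ℂ), f ∈ MF ι (8 * k) → ∀ M : ℝ, 0 ≤ M →
        (∀ σ ∈ Fx a, ∀ γ : SpZ ι, ((sH γ σ).1 : ι → ι → ℂ) ∈ K → Le k f M σ) →
        ∀ τ ∈ Fx a, Le k f (M * C ^ k) τ := by
  obtain ⟨m0, h1, hm0⟩ := exists_m0 m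
  obtain ⟨c, hc, hred⟩ := vlvan_red ι
  obtain ⟨c0, hc0, hlow⟩ := NN_low ι
  obtain ⟨ρ, hρ, hρ1, hρ2⟩ : ∃ ρ : ℝ, 0 < ρ ∧ ρ < c ∧ 2 * c * ρ < 1 :=
    ⟨min (c / 2) (1 / (4 * c)), lt_min (by linarith) (by positivity),
      (min_le_left _ _).trans_lt (by linarith),
      (mul_le_mul_of_nonneg_left (min_le_right _ _) (by linarith)).trans_lt (by
        field_simp
        norm_num)⟩
  obtain ⟨K, C, hK, hKH, hC⟩ := thick_red ι hc
    (show 0 < ρ / m0 ^ Fintype.card ι by positivity)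
  refine ⟨K, (|C| / c0) ^ 8, hK, hKH, by positivity, fun a ha k f hf M hM0 hM τ hτ => ?_⟩
  obtain ⟨δ, hδ, h2⟩ := hred τ
  let d : SpZ ι := ⟨δ, hδ⟩
  have h3 : ‖slash k (mz d⁻¹.1) f (sH d τ)‖ ≤ M * |C| ^ (8 * k) := by
    refine retract hm hm0 h1 (sim_cj ha d) hc (slash_mem_sp d⁻¹.2 hf) (Fintype.card ι) ρ hρ.le hρ1
      hρ2 (fun σ hσ h3 h4 => ?_) _ (fx_cj hm ha d hτ) (fun n hn => le_trans ?_ (h2 (rz n)))
      ((Submodule.finrank_le _).trans (Module.finrank_fintype_fun_eq_card ℝ).le)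
    · obtain ⟨h5, γ, hγ, h6⟩ := hC σ.1 σ.2 h3 h4
      have h7 := fx_cj hm (sim_cj ha d) d⁻¹ hσ
      rw [← cj_mul, inv_mul_cancel, cj_one] at h7
      have h8 := hM _ h7 (⟨γ, hγ⟩ * d) (by
        rw [← sH_mul, mul_inv_cancel_right, sH_val]
        exact h6)
      exact ((le_slash d⁻¹ σ).2 h8).trans (mul_le_mul_of_nonneg_left
        (pow_le_pow_left₀ (NN_pos σ.2).le (h5.trans (le_abs_self _)) _) hM0)
    · obtain ⟨i, hi⟩ := Function.ne_iff.1 hn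
      have h3 : (1 : ℝ) ≤ rz n i * rz n i := by
        have : (1 : ℤ) ≤ n i * n i := Int.add_one_le_iff.2 (mul_self_pos.2 hi)
        simp only [rz]
        exact_mod_cast this
      exact le_mul_of_one_le_right hc.le (h3.trans (Finset.single_le_sum
        (f := fun j => rz n j * rz n j) (fun j _ => mul_self_nonneg _) (Finset.mem_univ i)))
  rw [← sH_inv d τ, ← le_slash]
  refine h3.trans ?_
  rw [← pow_mul, mul_assoc, ← mul_pow]
  refine mul_le_mul_of_nonneg_left (pow_le_pow_left₀ (abs_nonneg _) ?_ _) hM0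
  rw [div_mul_eq_mul_div, le_div_iff₀ hc0]
  exact mul_le_mul_of_nonneg_left (hlow _ (sH d τ).2) (abs_nonneg _)

end M4.Rx
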