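import Mathlib
import Pool.Agent.Lib.MP_33b3f9_ag.Rx.Thick

/-!
Finiteness of the classes of families with a fixed point; a compact set for one family.
-/

set_option autoImplicit false

namespace M4.Rx

open Complex Matrix

variable {ι α : Type} [Fintype ι] [DecidableEq ι] {m : α → ℝ}

/-- Choose one element of `Z` in each residue class modulo `q` that contains one. -/
theorem exists_reps' (Z : Subgroup (SpZ ι)) {q : ℕ} (hq : q ≠ 0) : ∃ s : Finset (SpZ ι),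
    s.card ≤ q ^ (4 * Fintype.card ι ^ 2) ∧ (∀ δ ∈ s, δ ∈ Z) ∧
    ∀ γ ∈ Z, ∃ δ ∈ s, Lv q (γ * δ⁻¹).1 ∧ Lv q (δ⁻¹ * γ).1 := by
  classical
  have : NeZero q := ⟨hq⟩
  have h : ∀ r : Matrix (ι ⊕ ι) (ι ⊕ ι) (ZMod q), ∃ δ ∈ Z,
      ∀ γ ∈ Z, γ.1.map (Int.cast : ℤ → ZMod q) = r → δ.1.map (Int.cast : ℤ → ZMod q) = r := by
    intro r
    by_cases hr : ∃ γ ∈ Z, γ.1.map (Int.cast : ℤ → ZMod q) = r
    · obtain ⟨γ, hγ, e⟩ := hr
      exact ⟨γ, hγ, fun _ _ _ => e⟩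
    · exact ⟨1, one_mem _, fun γ hγ e => absurd ⟨γ, hγ, e⟩ hr⟩
  choose d hd hd' using h
  refine ⟨Finset.univ.image d, Finset.card_image_le.trans (le_of_eq ?_), ?_, fun γ hγ => ?_⟩
  · have e : Fintype.card (Matrix (ι ⊕ ι) (ι ⊕ ι) (ZMod q)) =
        Fintype.card ((ι ⊕ ι) → (ι ⊕ ι) → ZMod q) := Fintype.card_congr Matrix.of.symm
    rw [Finset.card_univ, e, Fintype.card_fun, Fintype.card_fun, ZMod.card, Fintype.card_sum,
      ← pow_mul]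
    congr 1
    ring
  · intro δ hδ
    obtain ⟨r, -, rfl⟩ := Finset.mem_image.1 hδ
    exact hd r
  · obtain ⟨δ, hδ⟩ : ∃ δ, δ = d (γ.1.map (Int.cast : ℤ → ZMod q)) := ⟨_, rfl⟩
    have e : ∀ i j, (q : ℤ) ∣ (γ.1 - δ.1) i j := fun i j => by
      have e := congrFun (congrFun (hd' _ γ hγ rfl) i) j
      rw [Matrix.sub_apply, hδ]
      exact (ZMod.intCast_eq_intCast_iff_dvd_sub _ _ _).1 e
    refine ⟨δ, hδ ▸ Finset.mem_image_of_mem d (Finset.mem_univ _), fun i j => ?_, fun i j => ?_⟩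
    · have e1 : (γ * δ⁻¹).1 - 1 = (γ.1 - δ.1) * δ⁻¹.1 := by
        rw [Matrix.sub_mul, ← Submonoid.coe_mul, ← Submonoid.coe_mul, mul_inv_cancel,
          OneMemClass.coe_one]
      rw [e1, Matrix.mul_apply]
      exact Finset.dvd_sum fun l _ => (e i l).mul_right _
    · have e1 : (δ⁻¹ * γ).1 - 1 = δ⁻¹.1 * (γ.1 - δ.1) := by
        rw [Matrix.mul_sub, ← Submonoid.coe_mul, ← Submonoid.coe_mul, inv_mul_cancel,
          OneMemClass.coe_one]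
      rw [e1, Matrix.mul_apply]
      exact Finset.dvd_sum fun l _ => (e l j).mul_left _

variable [Finite α]

/-- The families with a fixed point in a compact set. -/
theorem finite_fam (hm : ∀ i, 0 < m i) {K : Set (ι → ι → ℂ)} (hK : IsCompact K)
    (hH : ∀ τ ∈ K, InH τ) : {a : α → Matrix (ι ⊕ ι) (ι ⊕ ι) ℤ | (∀ i, Sim (mz (a i)) (m i)) ∧
      ∃ τ ∈ Fx a, (τ.1 : ι → ι → ℂ) ∈ K}.Finite := by
  refine (Set.Finite.pi' fun i => Mo.finite_act hK hH (hm i)).subset ?_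
  rintro a ⟨ha, τ, h1, h2⟩ i
  exact ⟨ha i, τ.1, h2, (congrArg (fun σ : Matrix ι ι ℂ => (σ : ι → ι → ℂ) ∈ K) (h1 i)).mpr h2⟩

/-- Finitely many classes. -/
theorem finite_classes (ι : Type) [Fintype ι] [DecidableEq ι] {m : α → ℝ} (hm : ∀ i, 0 < m i)
    {q : ℕ} (hq : q ≠ 0) :
    ∃ s : Set (α → Matrix (ι ⊕ ι) (ι ⊕ ι) ℤ), s.Finite ∧ ∀ a : α → Matrix (ι ⊕ ι) (ι ⊕ ι) ℤ,
      (∀ i, Sim (mz (a i)) (m i)) → (Fx a).Nonempty →
        ∃ a' ∈ s, ∃ γ ∈ symplecticGroup ι ℤ, Lv q γ ∧ ∀ i, γ * a i = a' i * γ := by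
  obtain ⟨K, C, hK, hH, -, h⟩ := bound_all ι hm
  obtain ⟨R, -, -, hR⟩ := exists_reps' (ι := ι) ⊤ hq
  refine ⟨_, R.finite_toSet.biUnion fun δ _ => (finite_fam hm hK hH).image (cj δ⁻¹), ?_⟩
  rintro a ha ⟨τ, hτ⟩
  obtain ⟨σ, hσ, γ, hγ⟩ : ∃ σ ∈ Fx a, ∃ γ : SpZ ι, ((sH γ σ).1 : ι → ι → ℂ) ∈ K := by
    by_contra hn
    have h1 := h a ha 0 1 MF.one 0 le_rfl (fun σ h1 γ h2 => absurd ⟨σ, h1, γ, h2⟩ hn) τ hτ
    rw [Le, zero_mul, zero_mul, Pi.one_apply, norm_one] at h1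
    exact absurd h1 (by norm_num)
  obtain ⟨δ, hδ, -, h1⟩ := hR γ trivial
  refine ⟨cj (δ⁻¹ * γ) a, Set.mem_biUnion hδ ⟨cj γ a, ⟨sim_cj ha γ, _, fx_cj hm ha γ hσ, hγ⟩,
    (cj_mul _ _ _).symm⟩, _, (δ⁻¹ * γ).2, h1, cj_comm _ a⟩

/-- The centraliser as a subgroup. -/
def CG (a : α → Matrix (ι ⊕ ι) (ι ⊕ ι) ℤ) : Subgroup (SpZ ι) where
  carrier := {γ | cj γ a = a}
  one_mem' := cj_one a
  mul_mem' := fun {γ δ} h h' => by
    change cj (γ * δ) a = a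
    rw [cj_mul, show cj δ a = a from h', show cj γ a = a from h]
  inv_mem' := fun {γ} h => by
    change cj γ⁻¹ a = a
    conv_lhs => rw [← show cj γ a = a from h]
    rw [← cj_mul, inv_mul_cancel, cj_one]

/-- A bound over a compact set for the translates by the centraliser gives a bound on the whole
fixed locus. -/
theorem bound_one {a : α → Matrix (ι ⊕ ι) (ι ⊕ ι) ℤ} (hm : ∀ i, 0 < m i)
    (ha : ∀ i, Sim (mz (a i)) (m i)) :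
    ∃ (K : Set (ι → ι → ℂ)) (C : ℝ), IsCompact K ∧ (∀ τ ∈ K, InH τ) ∧ 0 ≤ C ∧
      ∀ (k : ℕ) (f : HH ι → ℂ), f ∈ MF ι (8 * k) → ∀ M : ℝ, 0 ≤ M →
        (∀ η ∈ CG a, ∀ σ ∈ Fx a, (σ.1 : ι → ι → ℂ) ∈ K → Le k f M (sH η σ)) →
        ∀ τ ∈ Fx a, Le k f (M * C ^ k) τ := by
  obtain ⟨K, C, hK, hH, hC, h⟩ := bound_all ι hm
  have hg : ∀ a' : α → Matrix (ι ⊕ ι) (ι ⊕ ι) ℤ, ∃ g : SpZ ι, ∀ γ, cj γ a = a' → cj g a = a' :=
    fun a' => by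
      by_cases h1 : ∃ γ, cj γ a = a'
      · obtain ⟨γ, h1⟩ := h1
        exact ⟨γ, fun _ _ => h1⟩
      · exact ⟨1, fun γ h2 => absurd ⟨γ, h2⟩ h1⟩
  choose g hg using hg
  refine ⟨_, C, (finite_fam hm hK hH).isCompact_biUnion fun a' _ => hK.image_of_continuousOn
    (f := fun σ : ι → ι → ℂ => (actZ (g a')⁻¹ σ : ι → ι → ℂ))
    fun τ hτ => (Mo.continuousAt_actZ _ (hH τ hτ)).continuousWithinAt, fun τ hτ => ?_, hC,
    fun k f hf M hM0 hM => h a ha k f hf M hM0 fun σ hσ γ hγ => ?_⟩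
  · obtain ⟨a', -, σ, hσ, rfl⟩ := Set.mem_iUnion₂.1 hτ
    exact Mo.inH_actZ _ (hH σ hσ)
  · have h1 : (g (cj γ a))⁻¹ * γ ∈ CG a := by
      change cj _ a = a
      rw [cj_mul]
      conv_lhs => rw [← hg _ γ rfl]
      rw [hg _ γ rfl]
      nth_rewrite 2 [← hg _ γ rfl]
      rw [← cj_mul, inv_mul_cancel, cj_one]
    have h2 := fx_cj hm ha ((g (cj γ a))⁻¹ * γ) hσ
    rw [show cj _ a = a from h1] at h2
    have h3 := hM _ (inv_mem h1) _ h2 (Set.mem_biUnion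
      (show cj γ a ∈ _ from ⟨sim_cj ha γ, _, fx_cj hm ha γ hσ, hγ⟩) ⟨_, hγ, by
        rw [sH_mul, sH_val _ (sH γ σ)]
        rfl⟩)
    rwa [sH_inv] at h3

end M4.Rx
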