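import Mathlib

/-!
Vanishing to high order: the number of conditions and the Schwarz lemma.
-/

set_option autoImplicit false

namespace M4.Rx

open Filter Topology Asymptotics

variable {σ : Type} [Fintype σ]

/-- Functions that vanish to order `N` at the origin. -/
def OO (σ : Type) [Fintype σ] (N : ℕ) : Submodule ℂ ((σ → ℂ) → ℂ) where
  carrier := {h | h =O[𝓝 0] fun y => ‖y‖ ^ N}
  zero_mem' := isBigO_zero _ _
  add_mem' := fun h h' => IsBigO.add h h'
  smul_mem' := fun c _ h => IsBigO.const_smul_left h c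

/-- Polynomial functions of degree less than `N` in each variable. -/
noncomputable def PP (σ : Type) [Fintype σ] (N : ℕ) : Submodule ℂ ((σ → ℂ) → ℂ) :=
  Submodule.span ℂ (Set.range fun (e : σ → Fin N) (y : σ → ℂ) => ∏ i, y i ^ (e i : ℕ))

theorem diag_mem {j N : ℕ} (hj : j < N)
    (M : ContinuousMultilinearMap ℂ (fun _ : Fin j => σ → ℂ) ℂ) :
    (fun y => M fun _ => y) ∈ PP σ N := by
  classical
  have e : (fun y => M fun _ => y) = ∑ r : Fin j → σ, (M fun l => Pi.single (r l) 1) •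
      fun y : σ → ℂ => ∏ i, y i ^ (Finset.univ.filter fun l => r l = i).card := by
    funext y
    have h1 : y = ∑ i, y i • Pi.single i 1 := pi_eq_sum_univ' y
    conv_lhs => rw [h1]
    refine (M.map_sum fun _ i => y i • (Pi.single i 1 : σ → ℂ)).trans ?_
    rw [Finset.sum_apply]
    refine Finset.sum_congr rfl fun r _ => ?_
    rw [M.map_smul_univ, Pi.smul_apply, smul_eq_mul, smul_eq_mul, mul_comm,
      ← Finset.prod_fiberwise' Finset.univ r y]
    simp only [Finset.prod_const]
  rw [e]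
  refine Submodule.sum_mem _ fun r _ => Submodule.smul_mem _ _ (Submodule.subset_span
    ⟨fun i => ⟨(Finset.univ.filter fun l => r l = i).card, lt_of_le_of_lt ?_ hj⟩, rfl⟩)
  exact (Finset.card_le_univ _).trans (Fintype.card_fin j).le

theorem taylor {g : (σ → ℂ) → ℂ} (hg : AnalyticAt ℂ g 0) (N : ℕ) :
    ∃ p ∈ PP σ N, g - p ∈ OO σ N := by
  obtain ⟨p, hp⟩ := hg
  refine ⟨p.partialSum N, ?_, ?_⟩
  · have e : p.partialSum N = ∑ j ∈ Finset.range N, fun y => p j fun _ => y := by
      funext y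
      rw [Finset.sum_apply]
      rfl
    rw [e]
    exact Submodule.sum_mem _ fun j hj => diag_mem (Finset.mem_range.1 hj) _
  · have := hp.isBigO_sub_partialSum_pow N
    simp only [zero_add] at this
    exact this

theorem schwarz {g : (σ → ℂ) → ℂ} {R B : ℝ} {N : ℕ} (hd : DifferentiableOn ℂ g (Metric.ball 0 R))
    (hB : ∀ y ∈ Metric.ball (0 : σ → ℂ) R, ‖g y‖ ≤ B) (hO : g ∈ OO σ (N + 1)) {y : σ → ℂ}
    (hy : y ∈ Metric.ball (0 : σ → ℂ) (R / 2)) : ‖g y‖ ≤ B * (1 / 2) ^ (N + 1) := by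
  have hO' : g =O[𝓝 0] fun y => ‖y‖ ^ (N + 1) := hO
  have h0 : g 0 = 0 := hO'.eq_zero_imp.self_of_nhds (by simp)
  rw [Metric.mem_ball] at hy
  have hR : 0 < R := by linarith [dist_nonneg (x := y) (y := 0)]
  have h := Complex.dist_le_mul_div_pow_of_mapsTo_ball_of_isLittleO (n := N) (R₂ := B) (z := y) hd
    (fun z hz => by simpa [h0] using hB z hz)
    (by simpa [h0] using hO'.trans_isLittleO (isLittleO_norm_pow_norm_pow N.lt_succ_self))
    (Metric.mem_ball.2 (by linarith))
  rw [h0, dist_zero_right] at h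
  refine h.trans (mul_le_mul_of_nonneg_left (pow_le_pow_left₀ (by positivity) ?_ _)
    ((norm_nonneg _).trans (hB 0 (Metric.mem_ball_self hR))))
  rw [div_le_iff₀ hR]
  linarith

theorem fin_of_ker {V A B : Type} [AddCommGroup V] [Module ℂ V] [AddCommGroup A] [Module ℂ A]
    [AddCommGroup B] [Module ℂ B] [Module.Finite ℂ B] (res : V →ₗ[ℂ] A) (Φ : V →ₗ[ℂ] B)
    (h : ∀ v, Φ v = 0 → res v = 0) : Module.Finite ℂ (LinearMap.range res) ∧
      Module.finrank ℂ (LinearMap.range res) ≤ Module.finrank ℂ B := by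
  let ψ : LinearMap.range Φ →ₗ[ℂ] A :=
    ((LinearMap.ker Φ).liftQ res h).comp Φ.quotKerEquivRange.symm.toLinearMap
  have e : LinearMap.range res = LinearMap.range ψ := by
    rw [LinearMap.range_comp_of_range_eq_top _ (LinearEquiv.range _), Submodule.range_liftQ]
  rw [e]
  exact ⟨inferInstance, (LinearMap.finrank_range_le ψ).trans (Submodule.finrank_le _)⟩

theorem dim_le {V A J : Type} [AddCommGroup V] [Module ℂ V] [AddCommGroup A] [Module ℂ A]
    [Fintype J] (res : V →ₗ[ℂ] A) (G : J → V →ₗ[ℂ] ((σ → ℂ) → ℂ)) (N : ℕ)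
    (han : ∀ j v, AnalyticAt ℂ (G j v) 0) (h : ∀ v, (∀ j, G j v ∈ OO σ N) → res v = 0) :
    Module.Finite ℂ (LinearMap.range res) ∧
      Module.finrank ℂ (LinearMap.range res) ≤ Fintype.card J * N ^ Fintype.card σ := by
  classical
  let W := (PP σ N).map (OO σ N).mkQ
  have hP : Module.Finite ℂ (PP σ N) := Module.Finite.span_of_finite _ (Set.finite_range _)
  have hW : Module.finrank ℂ W ≤ N ^ Fintype.card σ := by
    refine (Submodule.finrank_map_le _ _).trans ((finrank_range_le_card _).trans (le_of_eq ?_))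
    rw [Fintype.card_fun, Fintype.card_fin]
  let Φ : V →ₗ[ℂ] (J → W) := LinearMap.pi fun j =>
    LinearMap.codRestrict W ((OO σ N).mkQ.comp (G j)) fun v => by
      obtain ⟨p, hp, h1⟩ := taylor (han j v) N
      exact ⟨p, hp, ((Submodule.Quotient.eq _).2 h1).symm⟩
  obtain ⟨h1, h2⟩ := fin_of_ker res Φ fun v hv => h v fun j =>
    (Submodule.Quotient.mk_eq_zero _).1 (congrArg Subtype.val (congrFun hv j))
  refine ⟨h1, h2.trans ?_⟩
  rw [Module.finrank_pi_fintype, Finset.sum_const, Finset.card_univ, smul_eq_mul]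
  exact Nat.mul_le_mul_left _ hW

end M4.Rx
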