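import Mathlib
import Pool.Agent.Lib.MP_33b3f9_ag.Rx.Cls
import Pool.Agent.Lib.MP_33b3f9_ag.Rx.Sch

/-!
The dimension of the spaces of forms on the fixed locus.
-/

set_option autoImplicit false

namespace M4.Rx

open Complex Matrix

variable {ι κ α : Type} [Fintype ι] [DecidableEq ι] [Fintype κ]

theorem im_low {K : Set (ι → ι → ℂ)} (hK : IsCompact K) (hH : ∀ τ ∈ K, InH τ) :
    ∃ c : ℝ, 0 < c ∧ ∀ τ : Matrix ι ι ℂ, (τ : ι → ι → ℂ) ∈ K →
      ∀ v : ι → ℝ, c * (v ⬝ᵥ v) ≤ v ⬝ᵥ τ.map im *ᵥ v := by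
  obtain ⟨c, C, hc, h⟩ := Mo.Qf_bounds hK hH
  refine ⟨c / (Fintype.card ι + 1), by positivity, fun τ hτ v => ?_⟩
  have h1 := (h τ hτ (Sum.elim v (-(τ.map re *ᵥ v)))).1
  have e1 : (fun i => Sum.elim v (-(τ.map re *ᵥ v)) (Sum.inl i)) = v := rfl
  have e2 : (fun i => Sum.elim v (-(τ.map re *ᵥ v)) (Sum.inr i)) = -(τ.map re *ᵥ v) := rfl
  rw [Mo.Qf_eq (τ := τ) (hH τ hτ), e1, e2, add_neg_cancel, zero_dotProduct, add_zero] at h1
  refine le_trans ?_ h1
  have h2 : v ⬝ᵥ v ≤ Fintype.card ι * ‖Sum.elim v (-(τ.map re *ᵥ v))‖ ^ 2 := by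
    rw [← nsmul_eq_mul, ← Finset.card_univ]
    refine Finset.sum_le_card_nsmul _ _ _ fun i _ => ?_
    rw [← sq, ← sq_abs]
    exact pow_le_pow_left₀ (abs_nonneg _)
      (norm_le_pi_norm (Sum.elim v (-(τ.map re *ᵥ v))) (Sum.inl i)) 2
  rw [div_mul_eq_mul_div, div_le_iff₀ (by positivity)]
  nlinarith [mul_le_mul_of_nonneg_left h2 hc.le,
    mul_nonneg hc.le (sq_nonneg ‖Sum.elim v (-(τ.map re *ᵥ v))‖)]

open Classical in
/-- Extension by zero, in the coordinates centred at `t`. -/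
noncomputable def ext (t : Sym2 κ → ℂ) : (HH κ → ℂ) →ₗ[ℂ] ((Sym2 κ → ℂ) → ℂ) where
  toFun F y := if h : InH (smat (t + y)) then F ⟨smat (t + y), h⟩ else 0
  map_add' F G := by
    funext y
    simp only [Pi.add_apply]
    split_ifs <;> simp
  map_smul' c F := by
    funext y
    simp only [Pi.smul_apply, RingHom.id_apply]
    split_ifs <;> simp

theorem ext_apply (F : HH κ → ℂ) {t y : Sym2 κ → ℂ} (h : InH (smat (t + y))) :
    ext t F y = F ⟨smat (t + y), h⟩ := dif_pos h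

omit [DecidableEq ι] in
theorem ext_diff {X : Set (HH ι)} {ch : HH κ → HH ι} (hch : Chart X ch) {n : ℕ} {f : HH ι → ℂ}
    (hf : f ∈ MF ι n) (t : Sym2 κ → ℂ) :
    DifferentiableOn ℂ (ext t fun z => f (ch z)) {y | InH (smat (t + y))} := by
  obtain ⟨Φ, hΦ, h1⟩ := hch.hol
  obtain ⟨F, hF, h2⟩ := MF.hol hf
  refine DifferentiableOn.congr (f := fun y => F (Φ (t + y))) (hF.comp (hΦ.comp
    (by fun_prop) fun y hy => hy) fun y hy => ?_) fun y hy => ?_
  · rw [h1 _ hy]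
    exact (ch _).2.posIm
  · rw [ext_apply _ hy, h2, h1 _ hy]

theorem isOpen_ext (t : Sym2 κ → ℂ) : IsOpen {y | InH (smat (t + y))} :=
  Mo.isOpen_inH.preimage (f := fun y => t + y) (by fun_prop)

omit [DecidableEq ι] in
/-- No zero divisors. -/
theorem MIX.mul_eq_zero {X : Set (HH ι)} {ch : HH κ → HH ι} (hch : Chart X ch) {n n' : ℕ}
    {f g : HH ι → ℂ} (hf : f ∈ MF ι n) (hg : g ∈ MF ι n')
    (h : ∀ z, f (ch z) * g (ch z) = 0) : (∀ z, f (ch z) = 0) ∨ ∀ z, g (ch z) = 0 := by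
  refine or_iff_not_imp_left.2 fun hn z => ?_
  obtain ⟨w, hw⟩ := not_forall.1 hn
  have hs : ∀ z : HH κ, InH (smat (0 + sco z.1)) := fun z => by
    rw [zero_add, Mo.smat_sco_of_inH z.2]
    exact z.2
  have he : ∀ (F : HH κ → ℂ) (z : HH κ), ext 0 F (sco z.1) = F z := fun F z => by
    rw [ext_apply _ (hs z)]
    exact congrArg F (Subtype.ext (by
      change smat (0 + sco z.1) = z.1
      rw [zero_add, Mo.smat_sco_of_inH z.2]))
  have hU : Convex ℝ {y : Sym2 κ → ℂ | InH (smat (0 + y))} := by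
    have e : {y : Sym2 κ → ℂ | InH (smat (0 + y))} =
        ((Mo.smatL κ).restrictScalars ℝ).toLinearMap ⁻¹' PosIm κ := by
      ext y
      rw [Set.mem_ofPred_eq, zero_add]
      exact ⟨fun h => h.posIm, fun h => mfhol_inH (IsSymm.ext fun i j => Mo.smat_symm y j i) h⟩
    rw [e]
    exact mfhol_convex.linear_preimage _
  have h1 := ((ext_diff hch hf 0).continuousOn.continuousAt
    ((isOpen_ext 0).mem_nhds (hs w))).eventually_ne (y := 0) (by rwa [he])
  rw [← he fun z => g (ch z)]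
  refine (Pool.Agent.Lib.MP_940f24_an.analyticOnNhd_of_differentiableOn (isOpen_ext 0)
    (ext_diff hch hg 0)).eqOn_zero_of_preconnected_of_eventuallyEq_zero hU.isPreconnected (hs w)
    ?_ (hs z)
  filter_upwards [h1, (isOpen_ext 0).mem_nhds (hs w)] with y hy hy'
  rw [ext_apply _ hy'] at hy ⊢
  exact (_root_.mul_eq_zero.1 (h _)).resolve_left hy

/-- A general construction of charts. -/
theorem chart_of {L : (κ → κ → ℂ) → ι → ι → ℂ} (hL : Differentiable ℂ L) {j : κ → ι}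
    (hj : Function.Injective j) (hjL : ∀ z i i', L z (j i) (j i') = z i i')
    (hH : ∀ z, InH z → InH (L z)) {S : Matrix (ι ⊕ ι) (ι ⊕ ι) ℝ} {s : ℝ} (hS : Sim S s)
    (hs : 0 < s) {ch : HH κ → HH ι} (hch : ∀ z, (ch z).1 = act S (L z.1)) :
    Chart (Set.range ch) ch := by
  refine ⟨rfl, ⟨fun t => act S (L (smat t)), fun t ht => ?_, fun t ht => (hch ⟨_, ht⟩).symm⟩,
    fun K hK hKH => ?_⟩
  · have h1 : DifferentiableAt ℂ (fun (σ : ι → ι → ℂ) i j => act S σ i j) (L (smat t)) :=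
      Mo.differentiableAt_act hS hs (hH _ ht)
    exact (h1.comp t ((hL _).comp t (Mo.smatL κ).differentiableAt)).differentiableWithinAt
  · have hS' := hS.inv hs.ne'
    have hs' := inv_pos.2 hs
    refine ⟨_, (hK.image_of_continuousOn (f := fun σ : ι → ι → ℂ => (act S⁻¹ σ : ι → ι → ℂ))
      fun τ hτ => (Mo.differentiableAt_act hS' hs' (hKH τ hτ)).continuousAt.continuousWithinAt).image
      (f := fun (σ : ι → ι → ℂ) i i' => σ (j i) (j i')) (by fun_prop), ?_, fun z hz =>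
        ⟨_, ⟨_, hz, rfl⟩, ?_⟩⟩
    · rintro _ ⟨_, ⟨τ, hτ, rfl⟩, rfl⟩
      have h1 := inH_act hS' hs' (hKH τ hτ)
      exact ⟨h1.1.submatrix j, h1.2.submatrix hj⟩
    · funext i i'
      beta_reduce
      rw [hch, ← Mo.act_mul hS' hs' hS hs (hH _ z.2),
        nonsing_inv_mul _ (hS.det_ne_zero hs.ne').isUnit, act_one]
      exact hjL _ i i'

/-- The block diagonal chart. -/
theorem chart_blk {ρ : Type} [Fintype ρ] [DecidableEq ρ] [Nonempty ρ] (e : κ × ρ ≃ ι)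
    {B : Matrix κ κ ℂ → Matrix ι ι ℂ}
    (hB : ∀ z p q, B z (e p) (e q) = if p.2 = q.2 then z p.1 q.1 else 0)
    {S : Matrix (ι ⊕ ι) (ι ⊕ ι) ℝ} {s : ℝ} (hS : Sim S s) (hs : 0 < s) {ch : HH κ → HH ι}
    (hch : ∀ z, (ch z).1 = act S (B z.1)) : Chart (Set.range ch) ch := by
  obtain ⟨r⟩ := ‹Nonempty ρ›
  have h1 : ∀ z, B z = (dg ρ z).submatrix e.symm e.symm := fun z => by
    ext p q
    rw [← e.apply_symm_apply p, ← e.apply_symm_apply q, hB, submatrix_apply, e.symm_apply_apply,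
      e.symm_apply_apply, dg, blockDiagonal_apply]
  refine chart_of (L := B) (j := fun i => e (i, r)) ?_
    (fun i i' h => (Prod.ext_iff.1 (e.injective h)).1) (fun z i i' => by rw [hB, if_pos rfl])
    (fun z hz => ?_) hS hs hch
  · refine differentiable_pi.2 fun p => differentiable_pi.2 fun q => ?_
    rw [← e.apply_symm_apply p, ← e.apply_symm_apply q]
    simp only [hB]
    split_ifs <;> fun_prop
  · have h2 := inH_dg (ρ := ρ) hz
    rw [h1]
    exact ⟨h2.1.submatrix _, h2.2.submatrix e.symm.injective⟩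

theorem chart_dg {ρ : Type} [Fintype ρ] [DecidableEq ρ] [Nonempty ρ] [DecidableEq κ]
    {S : Matrix ((κ × ρ) ⊕ (κ × ρ)) ((κ × ρ) ⊕ (κ × ρ)) ℝ} (hS : Sim S 1) :
    Chart (Set.range fun z => aH S (dH ρ z)) fun z : HH κ => aH S (dH ρ z) :=
  chart_blk (Equiv.refl _) (B := dg ρ) (fun _ p q => blockDiagonal_apply _ p q) hS one_pos
    fun _ => aH_val hS one_pos _

variable [Finite α]

/-- The dimension bound. -/
theorem dim_MIX {a : α → Matrix (ι ⊕ ι) (ι ⊕ ι) ℤ} {m : α → ℝ} (hm : ∀ i, 0 < m i)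
    (ha : ∀ i, Sim (mz (a i)) (m i)) {ch : HH κ → HH ι} (hch : Chart (Fx a) ch) :
    ∃ C : ℕ, ∀ q k : ℕ, q ≠ 0 → Module.Finite ℂ (MIX a ch {γ | Lv q γ} k) ∧
      Module.finrank ℂ (MIX a ch {γ | Lv q γ} k) ≤
        q ^ (4 * Fintype.card ι ^ 2) * C * (k + 1) ^ Fintype.card (Sym2 κ) := by
  classical
  obtain ⟨K, C, hK, hH, hC0, hC⟩ := bound_one hm ha
  obtain ⟨K', hK', hH', hpr⟩ := hch.proper K hK hH
  have hK2 := hK'.image Mo.continuous_sco
  obtain ⟨r, hr, hrU⟩ := hK2.exists_cthickening_subset_open Mo.isOpen_inH (by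
    rintro _ ⟨z, hz, rfl⟩
    rw [Set.mem_ofPred_eq, Mo.smat_sco_of_inH (hH' z hz)]
    exact hH' z hz)
  obtain ⟨T, hT1, hT2, hT3⟩ := finite_cover_balls_of_compact hK2 (half_pos hr)
  have hin : ∀ t ∈ T, ∀ y ∈ Metric.ball (0 : Sym2 κ → ℂ) r,
      t + y ∈ Metric.cthickening r (sco '' K') := fun t ht y hy =>
    Metric.mem_cthickening_of_dist_le _ t _ _ (hT1 ht) (by simpa using (Metric.mem_ball.1 hy).le)
  obtain ⟨C1, hC1⟩ : ∃ C1 : ℝ, ∀ t (ht : t ∈ Metric.cthickening r (sco '' K')),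
      NN (ch ⟨smat t, hrU ht⟩).1 ≤ C1 := by
    obtain ⟨Φ, hΦ, h1⟩ := hch.hol
    obtain ⟨c, hc, h2⟩ := im_low ((hK2.cthickening (r := r)).image_of_continuousOn
      (hΦ.continuousOn.mono hrU)) (by
        rintro _ ⟨t, ht, rfl⟩
        rw [h1 t (hrU ht)]
        exact (ch _).2)
    obtain ⟨C1, h3⟩ := NN_up (ι := ι) hc
    exact ⟨C1, fun t ht => h3 _ (ch _).2 (h2 _ ⟨t, ht, h1 t _⟩)⟩
  obtain ⟨c0, hc0, hlow⟩ := NN_low ι
  obtain ⟨c1, hc1, hK1⟩ := im_low hK hH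
  obtain ⟨C2, hC2⟩ := exists_pow_lt_of_lt_one (show 0 < c0 ^ 8 / (C * |C1| ^ 8 + 1) by positivity)
    (show (1 / 2 : ℝ) < 1 by norm_num)
  have hC3 : C * |C1| ^ 8 * (1 / 2) ^ C2 ≤ c0 ^ 8 := by
    rw [lt_div_iff₀ (by positivity)] at hC2
    nlinarith [show (0 : ℝ) < (1 / 2) ^ C2 by positivity]
  refine ⟨hT2.toFinset.card * (C2 + 1) ^ Fintype.card (Sym2 κ), fun q k hq => ?_⟩
  obtain ⟨R, hR1, hR2, hR3⟩ := exists_reps' (CG a) hq
  have hfx : ∀ δ ∈ CG a, ∀ σ ∈ Fx a, sH δ σ ∈ Fx a := fun δ hδ σ hσ => by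
    have := fx_cj hm ha δ hσ
    rwa [show cj δ a = a from hδ] at this
  have hchX : ∀ z, ch z ∈ Fx a := fun z => hch.range ▸ Set.mem_range_self z
  have main := dim_le ((LinearMap.funLeft ℂ ℂ ch).domRestrict (MIV a ch {γ | Lv q γ} k))
    (fun j : R × hT2.toFinset => (ext j.2.1).comp ((LinearMap.funLeft ℂ ℂ ch).comp
      ((slash k (mz j.1.1.1)).domRestrict (MIV a ch {γ | Lv q γ} k)))) (C2 * k + 1)
    (fun j f => Pool.Agent.Lib.MP_940f24_an.analyticOnNhd_of_differentiableOn (isOpen_ext _)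
      (ext_diff hch (slash_mem_sp j.1.1.2 f.2.1) _) 0
      (hrU (hin _ (hT2.mem_toFinset.1 j.2.2) 0 (Metric.mem_ball_self hr))))
    fun f hf => by
      have all : ∀ M, 0 ≤ M → (∀ δ ∈ R, ∀ σ ∈ Fx a, (σ.1 : ι → ι → ℂ) ∈ K → Le k f.1 M (sH δ σ)) →
          ∀ τ ∈ Fx a, Le k f.1 (M * C ^ k) τ := fun M hM h =>
        hC k f.1 f.2.1 M hM fun η hη σ hσ hσK => by
          obtain ⟨δ, hδ, h1, -⟩ := hR3 η hη
          obtain ⟨z, hz⟩ : sH δ σ ∈ Set.range ch := hch.range ▸ hfx δ (hR2 δ hδ) σ hσ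
          have h2 := f.2.2 _ h1 (mem_Cz.2 (mul_mem hη (inv_mem (hR2 δ hδ)))) z
          rw [← inv_mul_cancel_right η δ, sH_mul, ← le_slash, Le, ← hz, h2, hz]
          exact h δ hδ σ hσ hσK
      have key : ∀ M, 0 ≤ M → (∀ δ ∈ R, ∀ σ ∈ Fx a, (σ.1 : ι → ι → ℂ) ∈ K → Le k f.1 M (sH δ σ)) →
          ∀ δ ∈ R, ∀ σ ∈ Fx a, (σ.1 : ι → ι → ℂ) ∈ K → Le k f.1 (M / 2) (sH δ σ) := by
        intro M hM h δ hδ σ hσ hσK
        obtain ⟨z, rfl⟩ : σ ∈ Set.range ch := hch.range ▸ hσ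
        obtain ⟨t, ht, h1⟩ := Set.mem_iUnion₂.1 (hT3 ⟨_, hpr z hσK, rfl⟩)
        have h2 := schwarz (B := M * C ^ k * |C1| ^ (8 * k)) (R := r) (y := sco z.1 - t)
          ((ext_diff hch (slash_mem_sp δ.2 f.2.1) t).mono fun y hy => hrU (hin t ht y hy))
          (fun y hy => by
            rw [ext_apply _ (hrU (hin t ht y hy))]
            refine ((le_slash δ _).2 (all M hM h _ (hfx δ (hR2 δ hδ) _ (hchX _)))).trans
              (mul_le_mul_of_nonneg_left (pow_le_pow_left₀ (NN_pos (ch _).2).le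
                ((hC1 _ (hin t ht y hy)).trans (le_abs_self _)) _) (by positivity)))
          (hf (⟨δ, hδ⟩, ⟨t, hT2.mem_toFinset.2 ht⟩)) (by simpa [dist_eq_norm] using h1)
        have e : smat (t + (sco z.1 - t)) = z.1 := by
          rw [add_sub_cancel, Mo.smat_sco_of_inH z.2]
        have e' : InH (smat (t + (sco z.1 - t))) := by
          rw [e]
          exact z.2
        rw [ext_apply _ e', show (⟨_, e'⟩ : HH κ) = z from Subtype.ext e] at h2
        rw [← le_slash]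
        refine h2.trans ?_
        calc M * C ^ k * |C1| ^ (8 * k) * (1 / 2) ^ (C2 * k + 1)
            = M / 2 * (C * |C1| ^ 8 * (1 / 2) ^ C2) ^ k := by
              rw [mul_pow, mul_pow, ← pow_mul, ← pow_mul, pow_succ]
              ring
          _ ≤ M / 2 * (c0 ^ 8) ^ k := by gcongr
          _ ≤ _ := by
              rw [← pow_mul]
              exact mul_le_mul_of_nonneg_left (pow_le_pow_left₀ hc0.le (hlow _ (ch z).2) _)
                (by positivity)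
      choose B hB using fun δ : SpZ ι => MF.bound (slash_mem_sp δ.2 f.2.1) hc1
      obtain ⟨M, hM⟩ : ∃ M, M = (∑ δ ∈ R, |B δ|) / c0 ^ (8 * k) := ⟨_, rfl⟩
      have hM0 : 0 ≤ M := by rw [hM]; positivity
      have hj : ∀ j : ℕ, ∀ δ ∈ R, ∀ σ ∈ Fx a, (σ.1 : ι → ι → ℂ) ∈ K →
          Le k f.1 (M * (1 / 2) ^ j) (sH δ σ) := fun j => by
        induction j with
        | zero =>
          intro δ hδ σ _ hσK
          rw [← le_slash, pow_zero, mul_one, hM]
          have h2 : ‖slash k (mz δ.1) f.1 σ‖ ≤ ∑ δ ∈ R, |B δ| :=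
            ((hB δ σ (hK1 _ hσK)).trans (le_abs_self _)).trans
              (Finset.single_le_sum (f := fun δ => |B δ|) (fun _ _ => abs_nonneg _) hδ)
          refine h2.trans ?_
          rw [div_mul_eq_mul_div, le_div_iff₀ (pow_pos hc0 _)]
          exact mul_le_mul_of_nonneg_left (pow_le_pow_left₀ hc0.le (hlow _ σ.2) _)
            ((norm_nonneg _).trans h2)
        | succ j ih =>
          rw [pow_succ, ← mul_assoc, ← mul_div_assoc, mul_one]
          exact key _ (by positivity) ih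
      funext z
      have h2 : Filter.Tendsto (fun j : ℕ => M * (1 / 2 : ℝ) ^ j * C ^ k * NN (ch z).1 ^ (8 * k))
          Filter.atTop (nhds (M * 0 * C ^ k * NN (ch z).1 ^ (8 * k))) :=
        (((tendsto_pow_atTop_nhds_zero_of_lt_one (by norm_num) (by norm_num)).const_mul
          M).mul_const _).mul_const _
      rw [mul_zero, zero_mul, zero_mul] at h2
      exact norm_le_zero_iff.1 (ge_of_tendsto' h2 fun j =>
        all _ (by positivity) (hj j) _ (hchX z))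
  rw [LinearMap.range_domRestrict] at main
  refine ⟨main.1, main.2.trans ?_⟩
  rw [Fintype.card_prod, Fintype.card_coe, Fintype.card_coe, mul_assoc, mul_assoc, mul_assoc,
    ← mul_pow]
  exact Nat.mul_le_mul hR1 (Nat.mul_le_mul_left _ (Nat.pow_le_pow_left (by nlinarith) _))

end M4.Rx
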